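import Pool.Agent.Helper76.GS.Defs

/-!
# GS-NEAR: planks and lattice points near the arc

PROOFS. For `m ∈ ℤ²` and `q = (c, R)` put `a₁ = (c.1 - m.1) + t₀ ((c.2 - m.2) - β (c.1 - m.1)) + t₀² R`, `a₂ = ((c.2 - m.2) - β (c.1 - m.1)) + 2 t₀ R`. Then (`R > 0`) `a₁ = -Psi + R Del²`, `a₂ = -2 R Del` (`co1`, `co2`).
`Plk` moves `a₁` by `δ₁`, `|δ₁| ≤ r`, `a₂` by `δ₂`, `|δ₂| ≤ r/w`, `R` by `δ₃`, `|δ₃| ≤ r/w² ≤ R/100`. So `Del' = -(a₂ + δ₂)/(2R') = (2 R Del - δ₂)/(2R')`, `|Del'| ≤ (R/R') κ w + r/(2 w R') ≤ κ w (100/99) + w/198 ≤ (κ + 1) w`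
(`κ ≤ 4`), and `Psi' = -a₁ - δ₁ + R' Del'² = Psi - R Del² - δ₁ + (2 R Del - δ₂)²/(4R')`, so
`|Psi' - Psi| ≤ r + R Del² |R - R'|/R' + R |Del| |δ₂|/R' + δ₂²/(4R') ≤ r + (100/99)(κ² r + κ r) + r (r/w²)/(4R') ≤ 100 r`.
`plk_symm`: all the conditions are symmetric.
`plk_near1`, `plk_near2`: `plk_gen` with `κ = 2, 3`, `r = H^(3ε-1)`: `r/w² ≤ H^(3ε-1) ρ H^(1-10ε) = ρ H^(-7ε) ≤ R/100` for `H^(7ε) ≥ 400` (both for `R` and for `R'`: `R' ≥ 99R/100 ≥ ρ/3`), and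
`H^(ε-1) + 100 H^(3ε-1) ≤ 101 H^(3ε-1) ≤ H^(4ε-1)` for `H^ε ≥ 101`, `H^(4ε-1) + 100 H^(3ε-1) ≤ H^(5ε-1)`. For the second: `Plk q' q` and `R' > 0`.
-/

open MeasureTheory Real Set Filter Topology

set_option autoImplicit false

namespace Pool.Agent.Helper89.GS

open Pool.Agent.Helper22.AE
open Pool.Agent.Helper92.GC
open Pool.Agent.Helper76.GS

theorem plk_symm {β t₀ r s : ℝ} {q q' : (ℝ × ℝ) × ℝ} (h : Plk β t₀ r s q q') : Plk β t₀ r s q' q := by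
  obtain ⟨h1, h2, h3⟩ := h
  refine ⟨?_, ?_, ?_⟩
  · rw [← abs_neg] at h1
    refine le_trans (le_of_eq ?_) h1
    congr 1
    ring
  · rw [← abs_neg] at h2
    refine le_trans (le_of_eq ?_) h2
    congr 1
    ring
  · rw [abs_sub_comm]
    exact h3

private lemma core_h17 {R R' D d1 d2 r w κ : ℝ} (hR : 0 < R) (hw : 0 < w) (hr : 0 ≤ r)
    (hrw : r / w ^ 2 ≤ R / 100) (hκ : 0 ≤ κ) (hκ4 : κ ≤ 4) (hD : |D| ≤ κ * w) (h1 : |d1| ≤ r) (h2 : |d2| ≤ r / w)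
    (h3 : |R' - R| ≤ r / w ^ 2) :
    0 < R' ∧ |(2 * R * D - d2) / (2 * R')| ≤ (κ + 1) * w ∧
      |-d1 + (R' * ((2 * R * D - d2) / (2 * R')) ^ 2 - R * D ^ 2)| ≤ 100 * r := by
  have hRl : 99 / 100 * R ≤ R' := by
    have := (abs_le.1 h3).1
    linarith
  have hR' : 0 < R' := by linarith
  have hrR : r ≤ R / 100 * w ^ 2 := by rwa [div_le_iff₀ (by positivity)] at hrw
  have hd2w : |d2| * w ≤ r := by rwa [le_div_iff₀ hw] at h2
  have hd2R : |d2| ≤ R / 100 * w := by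
    refine h2.trans ?_
    rw [div_le_iff₀ hw]
    calc r ≤ R / 100 * w ^ 2 := hrR
      _ = R / 100 * w * w := by ring
  have hd3w : |R' - R| * w ^ 2 ≤ r := by rwa [le_div_iff₀ (by positivity)] at h3
  have hκw : 0 ≤ κ * w := by positivity
  refine ⟨hR', ?_, ?_⟩
  · rw [abs_div, abs_of_pos (by positivity : 0 < 2 * R'), div_le_iff₀ (by positivity)]
    have e1 : |2 * R * D - d2| ≤ 2 * R * (κ * w) + R / 100 * w := by
      refine (abs_sub _ _).trans ?_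
      rw [abs_mul, abs_of_pos (by positivity : 0 < 2 * R)]
      exact add_le_add (mul_le_mul_of_nonneg_left hD (by positivity)) hd2R
    have e2 : (κ + 1) * w * (2 * (99 / 100 * R)) ≤ (κ + 1) * w * (2 * R') :=
      mul_le_mul_of_nonneg_left (by linarith) (by positivity)
    have e3 : 0 ≤ R * w := by positivity
    have e4 : κ * (R * w) ≤ 4 * (R * w) := mul_le_mul_of_nonneg_right hκ4 e3
    linarith
  · have e1 : R' * ((2 * R * D - d2) / (2 * R')) ^ 2 - R * D ^ 2 =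
        (4 * (R * D ^ 2 * (R - R')) - 4 * (R * (D * d2)) + d2 ^ 2) / (4 * R') := by
      field_simp
      ring
    have hD2 : D ^ 2 ≤ (κ * w) ^ 2 := by
      rw [← sq_abs]
      exact pow_le_pow_left₀ (abs_nonneg _) hD 2
    have n1 : |R * D ^ 2 * (R - R')| ≤ 16 * (R * r) := by
      rw [abs_mul, abs_of_nonneg (by positivity : 0 ≤ R * D ^ 2), abs_sub_comm]
      calc R * D ^ 2 * |R' - R| ≤ R * (κ * w) ^ 2 * |R' - R| :=
            mul_le_mul_of_nonneg_right (mul_le_mul_of_nonneg_left hD2 hR.le) (abs_nonneg _)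
        _ = κ ^ 2 * (R * (|R' - R| * w ^ 2)) := by ring
        _ ≤ κ ^ 2 * (R * r) := mul_le_mul_of_nonneg_left (mul_le_mul_of_nonneg_left hd3w hR.le) (by positivity)
        _ ≤ 16 * (R * r) := by
            apply mul_le_mul_of_nonneg_right _ (by positivity)
            nlinarith
    have n2 : |R * (D * d2)| ≤ 4 * (R * r) := by
      rw [abs_mul, abs_mul, abs_of_pos hR]
      calc R * (|D| * |d2|) ≤ R * (κ * w * |d2|) :=
            mul_le_mul_of_nonneg_left (mul_le_mul_of_nonneg_right hD (abs_nonneg _)) hR.le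
        _ = κ * (R * (|d2| * w)) := by ring
        _ ≤ κ * (R * r) := mul_le_mul_of_nonneg_left (mul_le_mul_of_nonneg_left hd2w hR.le) hκ
        _ ≤ 4 * (R * r) := mul_le_mul_of_nonneg_right hκ4 (by positivity)
    have n3 : d2 ^ 2 ≤ R * r := by
      calc d2 ^ 2 = |d2| * |d2| := by rw [← sq, sq_abs]
        _ ≤ |d2| * (R / 100 * w) := mul_le_mul_of_nonneg_left hd2R (abs_nonneg _)
        _ = R / 100 * (|d2| * w) := by ring
        _ ≤ R / 100 * r := mul_le_mul_of_nonneg_left hd2w (by positivity)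
        _ ≤ R * r := by
            apply mul_le_mul_of_nonneg_right _ hr
            linarith
    have hRr : 0 ≤ R * r := by positivity
    have e2 : |(4 * (R * D ^ 2 * (R - R')) - 4 * (R * (D * d2)) + d2 ^ 2) / (4 * R')| ≤ 90 * r := by
      rw [abs_div, abs_of_pos (by positivity : 0 < 4 * R'), div_le_iff₀ (by positivity)]
      have e3 : |4 * (R * D ^ 2 * (R - R')) - 4 * (R * (D * d2)) + d2 ^ 2| ≤ 81 * (R * r) := by
        have m1 := abs_le.1 n1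
        have m2 := abs_le.1 n2
        have m3 : 0 ≤ d2 ^ 2 := sq_nonneg _
        rw [abs_le]
        constructor <;> linarith [m1.1, m1.2, m2.1, m2.2]
      refine e3.trans ?_
      have e4 : 90 * r * (4 * (99 / 100 * R)) ≤ 90 * r * (4 * R') :=
        mul_le_mul_of_nonneg_left (by linarith) (by positivity)
      linarith
    rw [e1]
    refine (abs_add_le _ _).trans ?_
    rw [abs_neg]
    linarith

theorem plk_gen {β t₀ r w κ d : ℝ} {q q' : (ℝ × ℝ) × ℝ} (hR : 0 < q.2) (hw : 0 < w) (hr : 0 ≤ r) (hrw : r / w ^ 2 ≤ q.2 / 100)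
    (hκ : 0 ≤ κ) (hκ4 : κ ≤ 4) (h : Plk β t₀ r w q q') :
    near β q.2 t₀ (κ * w) d q.1 ⊆ near β q'.2 t₀ ((κ + 1) * w) (d + 100 * r) q'.1 := by
  obtain ⟨h1, h2, h3⟩ := h
  rintro m ⟨hD, hP⟩
  obtain ⟨hR', hA, hB⟩ := core_h17 hR hw hr hrw hκ hκ4 hD h1 h2 h3
  have hDel : Del β q'.2 t₀ q'.1 m = (2 * q.2 * Del β q.2 t₀ q.1 m -
      (((q'.1.2 - q.1.2) - β * (q'.1.1 - q.1.1)) + 2 * t₀ * (q'.2 - q.2))) / (2 * q'.2) := by
    unfold Del zt
    field_simp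
    ring
  have hPsi : Psi β q'.2 q'.1 m = Psi β q.2 q.1 m + (-((q'.1.1 - q.1.1) +
      t₀ * ((q'.1.2 - q.1.2) - β * (q'.1.1 - q.1.1)) + t₀ ^ 2 * (q'.2 - q.2)) +
      (q'.2 * Del β q'.2 t₀ q'.1 m ^ 2 - q.2 * Del β q.2 t₀ q.1 m ^ 2)) := by
    unfold Psi Del zt
    field_simp
    ring
  constructor
  · rw [hDel]
    exact hA
  · rw [hPsi, hDel]
    refine (abs_add_le _ _).trans ?_
    exact add_le_add hP hB

private lemma near_mono_h17 {β R t₀ s d d' : ℝ} {c : ℝ × ℝ} (h : d ≤ d') : near β R t₀ s d c ⊆ near β R t₀ s d' c :=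
  fun _ hm => ⟨hm.1, hm.2.trans h⟩

theorem plk_near {ε : ℝ} (hε : 0 < ε) : ∃ H₀ : ℝ, 1 ≤ H₀ ∧ ∀ (β H ρ w t₀ : ℝ) (q q' : (ℝ × ℝ) × ℝ), H₀ ≤ H → 0 < ρ → 0 < w →
    H ^ (10 * ε) ≤ ρ * H * w ^ 2 → ρ / 2 ≤ q.2 → Plk β t₀ (H ^ (3 * ε - 1)) w q q' →
      near β q.2 t₀ (2 * w) (H ^ (ε - 1)) q.1 ⊆ near β q'.2 t₀ (3 * w) (H ^ (4 * ε - 1)) q'.1 ∧
      near β q'.2 t₀ (3 * w) (H ^ (4 * ε - 1)) q'.1 ⊆ near β q.2 t₀ (4 * w) (H ^ (5 * ε - 1)) q.1 := by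
  refine ⟨(101 : ℝ) ^ (1 / ε), one_le_rpow (by norm_num) (by positivity), ?_⟩
  intro β H ρ w t₀ q q' hH hρ hw hHw hq hP
  have hH1 : 1 ≤ H := le_trans (one_le_rpow (by norm_num) (by positivity)) hH
  have hH0 : 0 < H := by linarith
  have hHε : 101 ≤ H ^ ε := by
    calc (101 : ℝ) = ((101 : ℝ) ^ (1 / ε)) ^ ε := by
          rw [← rpow_mul (by norm_num), one_div_mul_cancel hε.ne', rpow_one]
      _ ≤ H ^ ε := rpow_le_rpow (by positivity) hH hε.le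
  have hr : 0 < H ^ (3 * ε - 1) := rpow_pos_of_pos hH0 _
  -- the radius
  have hrw : H ^ (3 * ε - 1) / w ^ 2 ≤ ρ / 400 := by
    rw [div_le_iff₀ (by positivity)]
    have h1 : H ^ (3 * ε - 1) * (H ^ (7 * ε) * H) = H ^ (10 * ε) := by
      have : H ^ (3 * ε - 1) * (H ^ (7 * ε) * H ^ (1 : ℝ)) = H ^ (10 * ε) := by
        rw [← rpow_add hH0, ← rpow_add hH0]
        congr 1
        ring
      rwa [rpow_one] at this
    have h7 : 400 ≤ H ^ (7 * ε) := by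
      have e1 : H ^ (7 * ε) = (H ^ ε) ^ 7 := by
        rw [← rpow_natCast, ← rpow_mul hH0.le]
        congr 1
        push_cast
        ring
      rw [e1]
      calc (400 : ℝ) ≤ 101 ^ 7 := by norm_num
        _ ≤ (H ^ ε) ^ 7 := pow_le_pow_left₀ (by norm_num) hHε 7
    have h2 : H ^ (3 * ε - 1) * (400 * H) ≤ ρ * H * w ^ 2 := by
      calc H ^ (3 * ε - 1) * (400 * H) ≤ H ^ (3 * ε - 1) * (H ^ (7 * ε) * H) :=
            mul_le_mul_of_nonneg_left (mul_le_mul_of_nonneg_right h7 hH0.le) hr.le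
        _ = H ^ (10 * ε) := h1
        _ ≤ ρ * H * w ^ 2 := hHw
    have h3 : 400 * H ^ (3 * ε - 1) * H ≤ ρ * w ^ 2 * H := by linarith
    have h4 := le_of_mul_le_mul_right h3 hH0
    linarith
  have hq0 : 0 < q.2 := by linarith
  have hq' : 99 / 100 * q.2 ≤ q'.2 := by
    have h1 := (abs_le.1 hP.2.2).1
    linarith
  have hq'0 : 0 < q'.2 := by linarith
  -- the exponents
  have e4 : H ^ (4 * ε - 1) = H ^ ε * H ^ (3 * ε - 1) := by
    rw [← rpow_add hH0]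
    congr 1
    ring
  have e5 : H ^ (5 * ε - 1) = H ^ ε * H ^ (4 * ε - 1) := by
    rw [← rpow_add hH0]
    congr 1
    ring
  have e1 : H ^ (ε - 1) ≤ H ^ (3 * ε - 1) := rpow_le_rpow_of_exponent_le hH1 (by linarith)
  have e34 : H ^ (3 * ε - 1) ≤ H ^ (4 * ε - 1) := rpow_le_rpow_of_exponent_le hH1 (by linarith)
  have h4 : H ^ (ε - 1) + 100 * H ^ (3 * ε - 1) ≤ H ^ (4 * ε - 1) := by
    have := mul_le_mul_of_nonneg_right hHε hr.le
    linarith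
  have h5 : H ^ (4 * ε - 1) + 100 * H ^ (3 * ε - 1) ≤ H ^ (5 * ε - 1) := by
    have := mul_le_mul_of_nonneg_right hHε (hr.le.trans e34)
    linarith
  constructor
  · have h6 := plk_gen (d := H ^ (ε - 1)) hq0 hw hr.le (by linarith) (by norm_num : (0 : ℝ) ≤ 2) (by norm_num) hP
    rw [show ((2 : ℝ) + 1) * w = 3 * w by ring] at h6
    exact h6.trans (near_mono_h17 h4)
  · have h6 := plk_gen (d := H ^ (4 * ε - 1)) hq'0 hw hr.le (by linarith) (by norm_num : (0 : ℝ) ≤ 3) (by norm_num)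
      (plk_symm hP)
    rw [show ((3 : ℝ) + 1) * w = 4 * w by ring] at h6
    exact h6.trans (near_mono_h17 h5)

end Pool.Agent.Helper89.GS
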