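import Pool.Agent.Helper89.GS.C4

/-!
# GS-CUTOFF: the cutoff theorem

PROOF. `w, W` from `exists_isKer`; `P = 16 ρ`, `a = ![H^(1-2ε), H^(1-2ε) s, H^(1-2ε) s²]`, `r = H^(3ε-1)`. From `r/s² ≤ ρ/8 ≤ H³/8` : `s² ≥ 8 H^(3ε-4)`, so `a 2 ≥ 8 H^(ε-3) ≥ H^(-3)`, and `a 2 ≤ a 1 ≤ a 0 ≤ H`.
`b = bb W β t₀ a E P ⌈2000 H^4⌉₊`; `bb_Bx`, `bb_l1` (choose `C ≥ 10^12 ≥ 12`). Let `S = Tq ×ˢ Icc 0 P`. `xp_bb`: the value is `r(q) = ∫ y in S ∩ E, Kp (vec q - vec y)`, between `0` and `∫ y in S, Kp = 1` (`Kp_nonneg`, `Kp_one`,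
`setIntegral_mono_set`; `Kp_cont` for integrability on the compact set `S`).
Let `ρ/2 ≤ q.2 ≤ 4ρ`. (i) Claim: if `y ∈ S` and `v : Fin 3 → ℤ` and the point `q' = ((y.1.1 - v 0, y.1.2 - v 1), y.2 - P v 2)` is in `Plk β t₀ r s q`, then `v 2 = 0` : `|q'.2 - q.2| ≤ r/s² ≤ ρ/8`, so `0 < q'.2 < P` and `0 ≤ y.2 ≤ P`.
(`v 2 ≥ 1` gives `q'.2 ≤ 0`, `v 2 ≤ -1` gives `q'.2 ≥ P`.) So `q' = ((y.1.1 - v 0, y.1.2 - v 1), y.2)` and by periodicity `q' ∈ E ↔ y ∈ E`.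
(ii) if `q' ∉ Plk ..` then, with `x = vec q - vec y + lat P v = vec q - vec q'`: `|A1 x| > r` or `|A2 x| > r/s` or `|x 2| > r/s²` (the definition of `Plk`, up to the sign), i.e. `|a 0 A1| ≥ H^ε` or `|a 1 A2| ≥ H^ε` or `|a 2 x 2| ≥ H^ε`
(`H^(1-2ε) H^(3ε-1) = H^ε`), so `Kr_tail` (with `B + 3`) bounds the term by `C H^(-B-3) D3 x`.
(iii) Second claim of the theorem (no point of the plank in `E`): for `y ∈ S ∩ E` no `q'` is in the plank (by (i) it would be in `E`), so `Kp (vec q - vec y) ≤ C H^(-B-3) ∑ D3 ≤ C' H^(-B-3)` (`lat_sum`), and the volume of `S` is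
`P = 16ρ ≤ 16 H³`. (iv) First claim: `1 - r(q) = ∫ y in S \ E, Kp` (`Kp_one`, additivity over `S ∩ E` and `S \ E`), the same for `y ∈ S \ E`.
-/

open MeasureTheory Real Set Filter Topology

set_option autoImplicit false

namespace Pool.Agent.Helper89.GS

open Pool.Agent.Helper22.AE
open Pool.Agent.Helper92.GC
open Pool.Agent.Helper76.GS

private theorem vec_cont36 : Continuous vec := by
  unfold vec
  refine continuous_pi fun i => ?_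
  fin_cases i <;> simp <;> fun_prop

private theorem S_vol36 {P : ℝ} (_hP : 0 ≤ P) : volume (Tq ×ˢ Icc (0 : ℝ) P) = ENNReal.ofReal P := by
  rw [Measure.volume_eq_prod, Measure.prod_prod, Tq, Measure.volume_eq_prod, Measure.prod_prod]
  simp

private theorem S_comp36 (P : ℝ) : IsCompact (Tq ×ˢ Icc (0 : ℝ) P) := (isCompact_Icc.prod isCompact_Icc).prod isCompact_Icc

/-- the part of the integral over a set whose translates avoid the core of the kernel -/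
private theorem tail36 {w W : ℝ → ℝ} (hk : IsKer w W) {ε β t₀ H P M Cl : ℝ} {a : Fin 3 → ℝ} (hβ : |β| ≤ 1 / 2) (ht : |t₀| ≤ 6)
    (ha : ∀ i, 0 < a i) (hP : 1 ≤ P) (hM : 0 ≤ M)
    (hT : ∀ x : Fin 3 → ℝ, (H ^ ε ≤ |a 0 * A1 β t₀ x| ∨ H ^ ε ≤ |a 1 * A2 β t₀ x| ∨ H ^ ε ≤ |a 2 * x 2|) →
      Kr w β t₀ a x ≤ M * D3 x)
    (hCl : ∀ x : Fin 3 → ℝ, Summable (fun v : Fin 3 → ℤ => D3 (x + lat P v)) ∧ ∑' v : Fin 3 → ℤ, D3 (x + lat P v) ≤ Cl)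
    (hCl0 : 0 ≤ Cl) (q : (ℝ × ℝ) × ℝ) (D : Set ((ℝ × ℝ) × ℝ)) (hD1 : D ⊆ Tq ×ˢ Icc (0 : ℝ) P)
    (hD : ∀ y ∈ D, ∀ v : Fin 3 → ℤ,
      (H ^ ε ≤ |a 0 * A1 β t₀ (vec q - vec y + lat P v)| ∨ H ^ ε ≤ |a 1 * A2 β t₀ (vec q - vec y + lat P v)| ∨
        H ^ ε ≤ |a 2 * (vec q - vec y + lat P v) 2|)) :
    ∫ y in D, Kp w β t₀ a P (vec q - vec y) ≤ M * Cl * P := by
  have hvol : volume D ≤ ENNReal.ofReal P := by
    rw [← S_vol36 (by linarith : (0 : ℝ) ≤ P)]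
    exact measure_mono hD1
  have hfin : volume D < ⊤ := lt_of_le_of_lt hvol ENNReal.ofReal_lt_top
  have hreal : volume.real D ≤ P := by
    rw [Measure.real]
    exact ENNReal.toReal_le_of_le_ofReal (by linarith) hvol
  have hpt : ∀ y ∈ D, ‖Kp w β t₀ a P (vec q - vec y)‖ ≤ M * Cl := by
    intro y hy
    rw [Real.norm_eq_abs, abs_of_nonneg (Kp_nonneg hk β t₀ ha P _)]
    unfold Kp
    obtain ⟨h1, h2⟩ := hCl (vec q - vec y)
    calc ∑' v : Fin 3 → ℤ, Kr w β t₀ a (vec q - vec y + lat P v)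
        ≤ ∑' v : Fin 3 → ℤ, M * D3 (vec q - vec y + lat P v) :=
          Summable.tsum_le_tsum (fun v => hT _ (hD y hy v)) (Kp_sum hk hβ ht ha hP _) (h1.mul_left M)
      _ = M * ∑' v : Fin 3 → ℤ, D3 (vec q - vec y + lat P v) := tsum_mul_left
      _ ≤ M * Cl := by gcongr
  have h3 := norm_setIntegral_le_of_norm_le_const hfin hpt
  calc ∫ y in D, Kp w β t₀ a P (vec q - vec y) ≤ ‖∫ y in D, Kp w β t₀ a P (vec q - vec y)‖ := le_norm_self _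
    _ ≤ M * Cl * volume.real D := h3
    _ ≤ M * Cl * P := by gcongr

/-- a translate is in the plank only if it is a translate by a vector of the plane lattice; outside the plank one coordinate is large -/
private theorem plank36 {ε β t₀ H s ρ : ℝ} (hH : 1 ≤ H) (hs : 0 < s) (hρ : 1 ≤ ρ) (hr : H ^ (3 * ε - 1) / s ^ 2 ≤ ρ / 8)
    {E : Set ((ℝ × ℝ) × ℝ)} (hper : ∀ (q : (ℝ × ℝ) × ℝ) (n : ℤ × ℤ), ((q.1.1 + n.1, q.1.2 + n.2), q.2) ∈ E ↔ q ∈ E)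
    {q : (ℝ × ℝ) × ℝ} (hq1 : ρ / 2 ≤ q.2) (hq2 : q.2 ≤ 4 * ρ) {y : (ℝ × ℝ) × ℝ} (hy : y.2 ∈ Icc (0 : ℝ) (16 * ρ)) (v : Fin 3 → ℤ) :
    (∃ q', Plk β t₀ (H ^ (3 * ε - 1)) s q q' ∧ (q' ∈ E ↔ y ∈ E)) ∨
      (H ^ ε ≤ |![H ^ (1 - 2 * ε), H ^ (1 - 2 * ε) * s, H ^ (1 - 2 * ε) * s ^ 2] 0 * A1 β t₀ (vec q - vec y + lat (16 * ρ) v)| ∨
        H ^ ε ≤ |![H ^ (1 - 2 * ε), H ^ (1 - 2 * ε) * s, H ^ (1 - 2 * ε) * s ^ 2] 1 * A2 β t₀ (vec q - vec y + lat (16 * ρ) v)| ∨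
        H ^ ε ≤ |![H ^ (1 - 2 * ε), H ^ (1 - 2 * ε) * s, H ^ (1 - 2 * ε) * s ^ 2] 2 * (vec q - vec y + lat (16 * ρ) v) 2|) := by
  have hH0 : 0 < H := by linarith
  set r : ℝ := H ^ (3 * ε - 1) with hrdef
  have hr0 : 0 < r := by positivity
  have hx0 : (vec q - vec y + lat (16 * ρ) v) 0 = q.1.1 - (y.1.1 - v 0) := by
    simp [vec, lat]
    ring
  have hx1 : (vec q - vec y + lat (16 * ρ) v) 1 = q.1.2 - (y.1.2 - v 1) := by
    simp [vec, lat]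
    ring
  have hx2 : (vec q - vec y + lat (16 * ρ) v) 2 = q.2 - (y.2 - 16 * ρ * v 2) := by
    simp [vec, lat]
    ring
  have hpow : H ^ (1 - 2 * ε) * r = H ^ ε := by
    rw [hrdef, ← Real.rpow_add hH0]
    congr 1
    ring
  have ha0 : 0 < H ^ (1 - 2 * ε) := by positivity
  by_cases hpl : Plk β t₀ r s q ((y.1.1 - v 0, y.1.2 - v 1), y.2 - 16 * ρ * v 2)
  · left
    refine ⟨_, hpl, ?_⟩
    obtain ⟨_, _, h3⟩ := hpl
    have h4 : |(y.2 - 16 * ρ * v 2) - q.2| ≤ ρ / 8 := h3.trans hr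
    obtain ⟨h5, h6⟩ := abs_le.1 h4
    have hv2 : v 2 = 0 := by
      by_contra hne
      rcases lt_or_gt_of_ne hne with hlt | hgt
      · have h7 : (v 2 : ℝ) ≤ -1 := by exact_mod_cast (by omega : v 2 ≤ -1)
        have h8 := hy.1
        nlinarith
      · have h7 : (1 : ℝ) ≤ (v 2 : ℝ) := by exact_mod_cast (by omega : 1 ≤ v 2)
        have h8 := hy.2
        nlinarith
    have h9 := hper y (-v 0, -v 1)
    rw [hv2]
    have h10 : ((y.1.1 - (v 0 : ℝ), y.1.2 - (v 1 : ℝ)), y.2 - 16 * ρ * ((0 : ℤ) : ℝ)) =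
        ((y.1.1 + ((-v 0 : ℤ) : ℝ), y.1.2 + ((-v 1 : ℤ) : ℝ)), y.2) := by
      push_cast
      simp [sub_eq_add_neg]
    rw [h10]
    exact h9
  · right
    unfold Plk at hpl
    simp only [not_and_or, not_le] at hpl
    have hA1 : A1 β t₀ (vec q - vec y + lat (16 * ρ) v) =
        -(((y.1.1 - v 0) - q.1.1) + t₀ * (((y.1.2 - v 1) - q.1.2) - β * ((y.1.1 - v 0) - q.1.1)) +
          t₀ ^ 2 * ((y.2 - 16 * ρ * v 2) - q.2)) := by
      unfold A1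
      rw [hx0, hx1, hx2]
      ring
    have hA2 : A2 β t₀ (vec q - vec y + lat (16 * ρ) v) =
        -((((y.1.2 - v 1) - q.1.2) - β * ((y.1.1 - v 0) - q.1.1)) + 2 * t₀ * ((y.2 - 16 * ρ * v 2) - q.2)) := by
      unfold A2
      rw [hx0, hx1, hx2]
      ring
    rcases hpl with h1 | h1 | h1
    · left
      simp only [Matrix.cons_val_zero]
      rw [hA1, abs_mul, abs_neg, abs_of_pos ha0, ← hpow]
      gcongr
    · right
      left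
      simp only [Matrix.cons_val_one, Matrix.cons_val_zero]
      rw [hA2, abs_mul, abs_neg, abs_of_pos (by positivity : 0 < H ^ (1 - 2 * ε) * s), ← hpow]
      have e : H ^ (1 - 2 * ε) * r = H ^ (1 - 2 * ε) * s * (r / s) := by
        field_simp
      rw [e]
      gcongr
    · right
      right
      have e0 : (![H ^ (1 - 2 * ε), H ^ (1 - 2 * ε) * s, H ^ (1 - 2 * ε) * s ^ 2] : Fin 3 → ℝ) 2 = H ^ (1 - 2 * ε) * s ^ 2 := rfl
      rw [e0, hx2, abs_mul, abs_of_pos (by positivity : 0 < H ^ (1 - 2 * ε) * s ^ 2), ← hpow, ← abs_neg (q.2 - _)]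
      have e : H ^ (1 - 2 * ε) * r = H ^ (1 - 2 * ε) * s ^ 2 * (r / s ^ 2) := by
        field_simp
      have e2 : -(q.2 - (y.2 - 16 * ρ * v 2)) = y.2 - 16 * ρ * v 2 - q.2 := by ring
      rw [e, e2]
      gcongr

theorem cutoff {ε : ℝ} (hε : 0 < ε) (hε1 : ε ≤ 1 / 10) (B : ℝ) : ∃ C : ℝ, 0 < C ∧ ∀ (β H ρ s t₀ : ℝ) (E : Set ((ℝ × ℝ) × ℝ)),
    |β| ≤ 1 / 2 → 1 ≤ H → 1 ≤ ρ → |t₀| ≤ 6 → 0 < s → s ≤ 1 → H ^ (3 * ε - 1) / s ^ 2 ≤ ρ / 8 → ρ ≤ H ^ 3 → MeasurableSet E →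
    (∀ (q : (ℝ × ℝ) × ℝ) (n : ℤ × ℤ), ((q.1.1 + n.1, q.1.2 + n.2), q.2) ∈ E ↔ q ∈ E) →
      ∃ b : Xp, Bx β H (2 * ε) t₀ s b ∧ l1 b ≤ C * H ^ C ∧ ∀ q : (ℝ × ℝ) × ℝ, ∃ r : ℝ, xp b q = (r : ℂ) ∧ 0 ≤ r ∧ r ≤ 1 ∧
        (ρ / 2 ≤ q.2 → q.2 ≤ 4 * ρ → (∀ q', Plk β t₀ (H ^ (3 * ε - 1)) s q q' → q' ∈ E) → 1 - C * H ^ (-B) ≤ r) ∧
        (ρ / 2 ≤ q.2 → q.2 ≤ 4 * ρ → (∀ q', Plk β t₀ (H ^ (3 * ε - 1)) s q q' → q' ∉ E) → r ≤ C * H ^ (-B)) := by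
  obtain ⟨w, W, hk⟩ := exists_isKer
  obtain ⟨Ct, hCt, htail⟩ := Kr_tail hk hε (B + 3)
  obtain ⟨Cl, hCl, hlat⟩ := lat_sum
  refine ⟨10 ^ 12 + 16 * (Ct * Cl), by positivity, ?_⟩
  intro β H ρ s t₀ E hβ hH hρ ht hs hs1 hr hρH hE hper
  have hH0 : 0 < H := by linarith
  have hP : 1 ≤ 16 * ρ := by linarith
  have hPH : 16 * ρ ≤ 16 * H ^ 3 := by linarith
  set a : Fin 3 → ℝ := ![H ^ (1 - 2 * ε), H ^ (1 - 2 * ε) * s, H ^ (1 - 2 * ε) * s ^ 2] with hadef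
  have hA0 : 0 < H ^ (1 - 2 * ε) := by positivity
  have ha : ∀ i, 0 < a i := by
    intro i
    fin_cases i
    · exact hA0
    · exact mul_pos hA0 hs
    · exact mul_pos hA0 (by positivity)
  have hAH : H ^ (1 - 2 * ε) ≤ H := by
    calc H ^ (1 - 2 * ε) ≤ H ^ (1 : ℝ) := Real.rpow_le_rpow_of_exponent_le hH (by linarith)
      _ = H := Real.rpow_one H
  have hs2 : s ^ 2 ≤ 1 := by nlinarith
  have haH : ∀ i, a i ≤ H := by
    intro i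
    fin_cases i
    · exact hAH
    · show H ^ (1 - 2 * ε) * s ≤ H
      nlinarith
    · show H ^ (1 - 2 * ε) * s ^ 2 ≤ H
      nlinarith [sq_nonneg s]
  have hlow2 : H ^ (-3 : ℝ) ≤ H ^ (1 - 2 * ε) * s ^ 2 := by
    have h1 : H ^ (3 * ε - 1) ≤ ρ / 8 * s ^ 2 := by
      rwa [div_le_iff₀ (by positivity)] at hr
    have h2 : H ^ (3 * ε - 1) ≤ H ^ 3 * s ^ 2 := by
      refine h1.trans ?_
      have : ρ / 8 ≤ H ^ 3 := by linarith
      gcongr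
    have h3 : H ^ (1 - 2 * ε) * s ^ 2 = H ^ (-2 - 2 * ε) * (H ^ 3 * s ^ 2) := by
      rw [← mul_assoc, ← Real.rpow_natCast H 3, ← Real.rpow_add hH0]
      congr 2
      push_cast
      ring
    rw [h3]
    calc H ^ (-3 : ℝ) ≤ H ^ (-2 - 2 * ε) * H ^ (3 * ε - 1) := by
          rw [← Real.rpow_add hH0]
          exact Real.rpow_le_rpow_of_exponent_le hH (by linarith)
      _ ≤ _ := by gcongr
  have hlow1 : H ^ (1 - 2 * ε) * s ^ 2 ≤ H ^ (1 - 2 * ε) * s := by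
    have : s ^ 2 ≤ s := by nlinarith
    gcongr
  have hlow0 : H ^ (1 - 2 * ε) * s ≤ H ^ (1 - 2 * ε) := by nlinarith
  have halow : ∀ i, H ^ (-3 : ℝ) ≤ a i ∧ a i ≤ H := by
    intro i
    refine ⟨?_, haH i⟩
    fin_cases i
    · exact hlow2.trans (hlow1.trans hlow0)
    · exact hlow2.trans hlow1
    · exact hlow2
  have hM : 0 ≤ Ct * H ^ (-(B + 3)) := by positivity
  have hT : ∀ x : Fin 3 → ℝ, (H ^ ε ≤ |a 0 * A1 β t₀ x| ∨ H ^ ε ≤ |a 1 * A2 β t₀ x| ∨ H ^ ε ≤ |a 2 * x 2|) →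
      Kr w β t₀ a x ≤ Ct * H ^ (-(B + 3)) * D3 x := fun x hx => htail H β t₀ a x hH hβ ht halow hx
  have hCl' := fun x => hlat (16 * ρ) hP x
  have hSc := S_comp36 (16 * ρ)
  have hSm : MeasurableSet (Tq ×ˢ Icc (0 : ℝ) (16 * ρ)) := hSc.measurableSet
  refine ⟨bb W β t₀ a E (16 * ρ) ⌈2000 * H ^ 4⌉₊, bb_Bx hk hε hH hβ ht hs hs1 hP hPH E _, ?_, ?_⟩
  · refine (bb_l1 hk hH hP a hE).trans ?_
    have h1 : H ^ 12 ≤ H ^ (10 ^ 12 + 16 * (Ct * Cl)) := by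
      rw [← Real.rpow_natCast H 12]
      apply Real.rpow_le_rpow_of_exponent_le hH
      push_cast
      have : 0 < Ct * Cl := by positivity
      linarith
    have h2 : (10 : ℝ) ^ 12 ≤ 10 ^ 12 + 16 * (Ct * Cl) := by
      have : 0 < Ct * Cl := by positivity
      linarith
    gcongr
  · intro q
    have hcont : Continuous fun y => Kp w β t₀ a (16 * ρ) (vec q - vec y) :=
      (Kp_cont hk hH hβ ht ha haH hP hPH).comp (continuous_const.sub vec_cont36)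
    have hint : IntegrableOn (fun y => Kp w β t₀ a (16 * ρ) (vec q - vec y)) (Tq ×ˢ Icc (0 : ℝ) (16 * ρ)) :=
      hcont.continuousOn.integrableOn_compact hSc
    have hone := Kp_one hk hH hβ ht ha haH hP hPH q
    have hsplit := integral_inter_add_sdiff (μ := volume) hE hint
    have hnn1 : 0 ≤ ∫ y in (Tq ×ˢ Icc (0 : ℝ) (16 * ρ)) ∩ E, Kp w β t₀ a (16 * ρ) (vec q - vec y) :=
      setIntegral_nonneg (hSm.inter hE) fun y _ => Kp_nonneg hk β t₀ ha _ _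
    have hnn2 : 0 ≤ ∫ y in (Tq ×ˢ Icc (0 : ℝ) (16 * ρ)) \ E, Kp w β t₀ a (16 * ρ) (vec q - vec y) :=
      setIntegral_nonneg (hSm.diff hE) fun y _ => Kp_nonneg hk β t₀ ha _ _
    have hbd : Ct * H ^ (-(B + 3)) * Cl * (16 * ρ) ≤ (10 ^ 12 + 16 * (Ct * Cl)) * H ^ (-B) := by
      have h1 : H ^ (-(B + 3)) * ρ ≤ H ^ (-B) := by
        have h2 : H ^ (-B) = H ^ (-(B + 3)) * H ^ 3 := by
          rw [← Real.rpow_natCast H 3, ← Real.rpow_add hH0]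
          congr 1
          push_cast
          ring
        rw [h2]
        gcongr
      have h3 : 0 ≤ H ^ (-B) := by positivity
      calc Ct * H ^ (-(B + 3)) * Cl * (16 * ρ) = 16 * (Ct * Cl) * (H ^ (-(B + 3)) * ρ) := by ring
        _ ≤ 16 * (Ct * Cl) * H ^ (-B) := by gcongr
        _ ≤ _ := by nlinarith
    refine ⟨_, xp_bb hk hH hβ ht ha haH hP hPH hE q, hnn1, by linarith, ?_, ?_⟩
    · intro hq1 hq2 hall
      have h1 := tail36 hk (ε := ε) (H := H) hβ ht ha hP hM hT hCl' hCl.le q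
        ((Tq ×ˢ Icc (0 : ℝ) (16 * ρ)) \ E) (fun y hy => hy.1) (fun y hy v => by
          rcases plank36 (ε := ε) (β := β) (t₀ := t₀) hH hs hρ hr hper hq1 hq2 hy.1.2 v with ⟨q', h2, h3⟩ | h2
          · exact absurd (h3.1 (hall q' h2)) hy.2
          · exact h2)
      linarith
    · intro hq1 hq2 hall
      have h1 := tail36 hk (ε := ε) (H := H) hβ ht ha hP hM hT hCl' hCl.le q
        ((Tq ×ˢ Icc (0 : ℝ) (16 * ρ)) ∩ E) (fun y hy => hy.1) (fun y hy v => by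
          rcases plank36 (ε := ε) (β := β) (t₀ := t₀) hH hs hρ hr hper hq1 hq2 hy.1.2 v with ⟨q', h2, h3⟩ | h2
          · exact absurd (h3.2 hy.2) (hall q' h2)
          · exact h2)
      linarith

end Pool.Agent.Helper89.GS
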