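import Pool.Agent.Helper76.GS.Defs
import Pool.Agent.Helper88.BD.PoissonDecay
import Pool.Agent.Helper92.EO.Ker

/-!
# Project GS, part B (helper89): cutoffs, definitions

Plan: /team-store/h76_GS_plan.md. Space `Fin 3 → ℝ` = coordinates `(c₁, c₂, R)`.
-/

open MeasureTheory Real Set Filter Topology

set_option autoImplicit false

namespace Pool.Agent.Helper89.GS

open Pool.Agent.Helper22.AE
open Pool.Agent.Helper92.GC
open Pool.Agent.Helper76.GS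

/-- a smooth kernel on the line, non negative, with rapid decay, whose Fourier transform `W` vanishes outside `(-1, 1)` -/
structure IsKer (w W : ℝ → ℝ) : Prop where
  cont : Continuous w
  nonneg : ∀ u, 0 ≤ w u
  dec : ∀ n : ℕ, ∃ C : ℝ, ∀ u, |u| ^ n * w u ≤ C
  int : Integrable w
  one : ∫ u, w u = 1
  four : ∀ x : ℝ, ∫ u : ℝ, ((w u : ℝ) : ℂ) * ee (-(x * u)) = ((W x : ℝ) : ℂ)
  zero : ∀ x, 1 ≤ |x| → W x = 0
  Wnn : ∀ x, 0 ≤ W x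

theorem exists_isKer : ∃ w W : ℝ → ℝ, IsKer w W := by
  obtain ⟨w, W, h1, h2, _, h4, h5, h6, h7, _, h9, h10, _⟩ := Pool.Agent.Helper92.EO.exists_ker_smooth
  exact ⟨w, W, h1, h2, h4, h5, h6, h7, h9, h10⟩

/-- first coordinate of the plank -/
noncomputable def A1 (β t₀ : ℝ) (x : Fin 3 → ℝ) : ℝ := x 0 + t₀ * (x 1 - β * x 0) + t₀ ^ 2 * x 2

/-- second coordinate of the plank -/
noncomputable def A2 (β t₀ : ℝ) (x : Fin 3 → ℝ) : ℝ := (x 1 - β * x 0) + 2 * t₀ * x 2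

/-- first dual coordinate -/
noncomputable def e1 (β : ℝ) (ξ : Fin 3 → ℝ) : ℝ := ξ 0 + β * ξ 1

/-- second dual coordinate -/
noncomputable def e2 (β t₀ : ℝ) (ξ : Fin 3 → ℝ) : ℝ := ξ 1 - t₀ * e1 β ξ

/-- third dual coordinate -/
noncomputable def e3 (β t₀ : ℝ) (ξ : Fin 3 → ℝ) : ℝ := ξ 2 - (2 * t₀ * ξ 1 - t₀ ^ 2 * e1 β ξ)

/-- the kernel of the plank with the scales `1 / a i` -/
noncomputable def Kr (w : ℝ → ℝ) (β t₀ : ℝ) (a : Fin 3 → ℝ) (x : Fin 3 → ℝ) : ℝ :=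
  (a 0 * w (a 0 * A1 β t₀ x)) * (a 1 * w (a 1 * A2 β t₀ x)) * (a 2 * w (a 2 * x 2))

/-- its Fourier transform -/
noncomputable def Wh (W : ℝ → ℝ) (β t₀ : ℝ) (a : Fin 3 → ℝ) (ξ : Fin 3 → ℝ) : ℝ :=
  W (e1 β ξ / a 0) * W (e2 β t₀ ξ / a 1) * W (e3 β t₀ ξ / a 2)

/-- the lattice `ℤ × ℤ × P ℤ` -/
noncomputable def lat (P : ℝ) (v : Fin 3 → ℤ) : Fin 3 → ℝ := ![(v 0 : ℝ), (v 1 : ℝ), P * (v 2 : ℝ)]

/-- the dual lattice -/
noncomputable def dlat (P : ℝ) (v : Fin 3 → ℤ) : Fin 3 → ℝ := ![(v 0 : ℝ), (v 1 : ℝ), (v 2 : ℝ) / P]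

/-- scalar product -/
noncomputable def sc (ξ x : Fin 3 → ℝ) : ℝ := ξ 0 * x 0 + ξ 1 * x 1 + ξ 2 * x 2

/-- the periodic kernel -/
noncomputable def Kp (w : ℝ → ℝ) (β t₀ : ℝ) (a : Fin 3 → ℝ) (P : ℝ) (x : Fin 3 → ℝ) : ℝ :=
  ∑' v : Fin 3 → ℤ, Kr w β t₀ a (x + lat P v)

/-- the weight `∏ (1 + x i ^ 2)⁻¹` -/
noncomputable def D3 (x : Fin 3 → ℝ) : ℝ := ∏ i, (1 + x i ^ 2)⁻¹

/-- a point of `(ℝ × ℝ) × ℝ` as a vector -/
def vec (q : (ℝ × ℝ) × ℝ) : Fin 3 → ℝ := ![q.1.1, q.1.2, q.2]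

/-- the set of the indices of the Fourier series of the periodic kernel, `|k i| ≤ N` -/
noncomputable def bx3 (N : ℕ) : Finset (Fin 3 → ℤ) := Fintype.piFinset fun _ => Finset.Icc (-(N : ℤ)) N

end Pool.Agent.Helper89.GS
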