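import Pool.Agent.Helper89.GS.C0

/-!
# GS-C1: the kernel of a plank and its Fourier transform

PROOFS. `Kr_cont`, `Kr_nonneg`: products of continuous (non negative) functions; `A1`, `A2` are continuous (`fun_prop` after `unfold`).
`W_le`: `|W x| = ‖∫ w u ee(-(x u))‖ ≤ ∫ w = 1` (`norm_integral_le_integral_norm`, `ee_norm`, `nonneg`, `one`). `W_zero`: `four` at `x = 0`, `ee 0 = 1`.
`lin_mp`: the linear map `L x = ![A1 x, A2 x, x 2]` of `Fin 3 → ℝ` has determinant 1 (`Real.map_linearMap_volume_pi_eq_smul_volume_pi` with `LinearMap.toMatrix'`, `Matrix.det_fin_three`;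
or three shears), so it preserves the volume: `∫ F (L x) = ∫ F x` for every `F` (`MeasurePreserving.integral_comp'` or `integral_comp` with a measurable embedding: `L` is a linear equivalence, homeomorphism).
`four_Kr`: `sc ξ x = e1 β ξ * A1 β t₀ x + e2 β t₀ ξ * A2 β t₀ x + e3 β t₀ ξ * x 2` (identity `sc_eq`, `ring`), so by `lin_mp` the integral is
`∫ y, ∏ i, (a i w(a i y i) ee(-(η i y i)))` over `Fin 3 → ℝ` (`ee_add`), the product (`MeasureTheory.integral_fintype_prod_eq_prod`) of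
`∫ u, a w(a u) ee(-(η u)) du = ∫ w(v) ee(-((η/a) v)) dv = W(η/a)` (`integral_comp_mul_left`, `a > 0`).
-/

open MeasureTheory Real Set Filter Topology

set_option autoImplicit false

namespace Pool.Agent.Helper89.GS

open Pool.Agent.Helper22.AE
open Pool.Agent.Helper92.GC
open Pool.Agent.Helper76.GS

theorem Kr_cont {w W : ℝ → ℝ} (hk : IsKer w W) (β t₀ : ℝ) (a : Fin 3 → ℝ) : Continuous (Kr w β t₀ a) := by
  have h := hk.cont
  unfold Kr A1 A2
  fun_prop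

theorem Kr_nonneg {w W : ℝ → ℝ} (hk : IsKer w W) (β t₀ : ℝ) {a : Fin 3 → ℝ} (ha : ∀ i, 0 < a i) (x : Fin 3 → ℝ) :
    0 ≤ Kr w β t₀ a x := by
  unfold Kr
  exact mul_nonneg (mul_nonneg (mul_nonneg (ha 0).le (hk.nonneg _)) (mul_nonneg (ha 1).le (hk.nonneg _)))
    (mul_nonneg (ha 2).le (hk.nonneg _))

theorem W_le {w W : ℝ → ℝ} (hk : IsKer w W) (x : ℝ) : W x ≤ 1 := by
  have h1 : ‖((W x : ℝ) : ℂ)‖ ≤ 1 := by
    rw [← hk.four x]
    refine (norm_integral_le_integral_norm _).trans ?_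
    have h2 : ∀ u : ℝ, ‖((w u : ℝ) : ℂ) * ee (-(x * u))‖ = w u := by
      intro u
      rw [norm_mul, ee_norm, mul_one, Complex.norm_real, Real.norm_of_nonneg (hk.nonneg u)]
    simp_rw [h2]
    rw [hk.one]
  rw [Complex.norm_real] at h1
  exact (le_abs_self _).trans h1

theorem W_zero {w W : ℝ → ℝ} (hk : IsKer w W) : W 0 = 1 := by
  have h := hk.four 0
  have h2 : ∀ u : ℝ, ((w u : ℝ) : ℂ) * ee (-(0 * u)) = ((w u : ℝ) : ℂ) := by
    intro u
    rw [zero_mul, neg_zero, ee_zero, mul_one]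
  simp_rw [h2] at h
  rw [integral_complex_ofReal, hk.one] at h
  exact_mod_cast h.symm

theorem sc_eq (β t₀ : ℝ) (ξ x : Fin 3 → ℝ) :
    sc ξ x = e1 β ξ * A1 β t₀ x + e2 β t₀ ξ * A2 β t₀ x + e3 β t₀ ξ * x 2 := by
  unfold sc A1 A2 e3 e2 e1
  ring

/-- the matrix of the change of variables -/
private def M88 (β t₀ : ℝ) : Matrix (Fin 3) (Fin 3) ℝ :=
  !![1 - t₀ * β, t₀, t₀ ^ 2; -β, 1, 2 * t₀; 0, 0, 1]

private theorem det88 (β t₀ : ℝ) : (M88 β t₀).det = 1 := by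
  unfold M88
  rw [Matrix.det_fin_three]
  simp

private theorem app88 (β t₀ : ℝ) (x : Fin 3 → ℝ) :
    Matrix.toLin' (M88 β t₀) x = ![A1 β t₀ x, A2 β t₀ x, x 2] := by
  unfold M88 A1 A2
  rw [Matrix.toLin'_apply]
  ext i
  fin_cases i
  · simp [Matrix.mulVec, dotProduct, Fin.sum_univ_three]
    ring
  · simp [Matrix.mulVec, dotProduct, Fin.sum_univ_three]
    ring
  · simp [Matrix.mulVec, dotProduct, Fin.sum_univ_three]

/-- the change of variables of determinant one -/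
theorem lin_mp (β t₀ : ℝ) (F : (Fin 3 → ℝ) → ℂ) :
    ∫ x : Fin 3 → ℝ, F ![A1 β t₀ x, A2 β t₀ x, x 2] = ∫ x : Fin 3 → ℝ, F x := by
  have hdet : LinearMap.det (Matrix.toLin' (M88 β t₀)) ≠ 0 := by
    rw [LinearMap.det_toLin', det88]
    exact one_ne_zero
  have hmap : Measure.map (Matrix.toLin' (M88 β t₀)) (volume : Measure (Fin 3 → ℝ)) = volume := by
    rw [Real.map_matrix_volume_pi_eq_smul_volume_pi (by rw [det88]; exact one_ne_zero), det88]
    simp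
  let e := ((Matrix.toLin' (M88 β t₀)).equivOfDetNeZero hdet).toContinuousLinearEquiv
  have he : MeasurableEmbedding (Matrix.toLin' (M88 β t₀)) := e.toHomeomorph.measurableEmbedding
  have h := he.integral_map (μ := (volume : Measure (Fin 3 → ℝ))) F
  rw [hmap] at h
  rw [h]
  simp_rw [app88]

private theorem one88 {w W : ℝ → ℝ} (hk : IsKer w W) {a : ℝ} (ha : 0 < a) (η : ℝ) :
    ∫ u : ℝ, ((a * w (a * u) : ℝ) : ℂ) * ee (-(η * u)) = ((W (η / a) : ℝ) : ℂ) := by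
  have h := Measure.integral_comp_mul_left
    (fun v : ℝ => ((w v : ℝ) : ℂ) * ee (-(η / a * v))) a
  rw [hk.four, abs_of_pos (inv_pos.mpr ha)] at h
  have h2 : ∀ u : ℝ, ((a * w (a * u) : ℝ) : ℂ) * ee (-(η * u)) =
      (a : ℂ) * (((w (a * u) : ℝ) : ℂ) * ee (-(η / a * (a * u)))) := by
    intro u
    have h3 : η / a * (a * u) = η * u := by field_simp
    rw [h3]
    push_cast
    ring
  simp_rw [h2]
  rw [integral_const_mul, h, Complex.real_smul, ← mul_assoc, ← Complex.ofReal_mul,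
    mul_inv_cancel₀ ha.ne', Complex.ofReal_one, one_mul]

theorem four_Kr {w W : ℝ → ℝ} (hk : IsKer w W) (β t₀ : ℝ) {a : Fin 3 → ℝ} (ha : ∀ i, 0 < a i) (ξ : Fin 3 → ℝ) :
    ∫ x : Fin 3 → ℝ, ((Kr w β t₀ a x : ℝ) : ℂ) * ee (-(sc ξ x)) = ((Wh W β t₀ a ξ : ℝ) : ℂ) := by
  have h1 : ∀ x : Fin 3 → ℝ, ((Kr w β t₀ a x : ℝ) : ℂ) * ee (-(sc ξ x)) =
      (fun y : Fin 3 → ℝ => ∏ i, (((a i * w (a i * y i) : ℝ) : ℂ) *
        ee (-((![e1 β ξ, e2 β t₀ ξ, e3 β t₀ ξ] : Fin 3 → ℝ) i * y i)))) ![A1 β t₀ x, A2 β t₀ x, x 2] := by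
    intro x
    rw [sc_eq β t₀ ξ x]
    simp only [Fin.prod_univ_three]
    have h2 : ee (-(e1 β ξ * A1 β t₀ x + e2 β t₀ ξ * A2 β t₀ x + e3 β t₀ ξ * x 2)) =
        ee (-(e1 β ξ * A1 β t₀ x)) * ee (-(e2 β t₀ ξ * A2 β t₀ x)) * ee (-(e3 β t₀ ξ * x 2)) := by
      rw [← ee_add, ← ee_add]
      congr 1
      ring
    rw [h2]
    unfold Kr
    simp only [Matrix.cons_val_zero, Matrix.cons_val_one, Matrix.cons_val]
    push_cast
    ring
  simp_rw [h1]
  rw [lin_mp β t₀ (fun y : Fin 3 → ℝ => ∏ i, (((a i * w (a i * y i) : ℝ) : ℂ) *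
        ee (-((![e1 β ξ, e2 β t₀ ξ, e3 β t₀ ξ] : Fin 3 → ℝ) i * y i))))]
  rw [integral_fintype_prod_volume_eq_prod (fun (i : Fin 3) (u : ℝ) => (((a i * w (a i * u) : ℝ) : ℂ) *
        ee (-((![e1 β ξ, e2 β t₀ ξ, e3 β t₀ ξ] : Fin 3 → ℝ) i * u))))]
  simp_rw [fun i => one88 hk (ha i) ((![e1 β ξ, e2 β t₀ ξ, e3 β t₀ ξ] : Fin 3 → ℝ) i)]
  rw [Fin.prod_univ_three]
  unfold Wh
  simp only [Matrix.cons_val_zero, Matrix.cons_val_one, Matrix.cons_val]
  push_cast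
  ring

end Pool.Agent.Helper89.GS
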