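import Pool.Agent.Helper89.GS.C0

/-!
# GS-C2: decay of the kernel and lattice sums

PROOFS. `w_dec`: from `IsKer.dec` with `n` and `0`: `(1 + |u|)^n ≤ 2^n (1 + |u|^n)`. Let `S = (1 + |A1|)(1 + |A2|)(1 + |x 2|)`. Then `|x i| ≤ 100 S` for all `i`: with `y = x 1 - β x 0`: `|y| ≤ |A2| + 12 |x 2| ≤ 13 S`,
`x 0 = A1 - t₀ y - t₀² x 2`: `|x 0| ≤ |A1| + 6 |y| + 36 |x 2| ≤ ...` (`|t₀| ≤ 6`, `|β| ≤ 1/2`; any constant is fine, e.g. use `A1 - t₀ A2 + t₀² x 2 = x 0`), `x 1 = y + β x 0`. So `D3 x ≥ (c/S)^6` : `1 + x i ^ 2 ≤ 10^5 S²`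
and `(S^6)⁻¹ ≤ 10^15 D3 x` (`D3_ge`).
`Kr_dec` (no uniformity): `a i w(a i y) ≤ a i C (1 + |a i y|)^(-6) ≤ C' (1 + |y|)^(-6)`, product `≤ C'' S^(-6) ≤ C''' D3 x`. (Any `β`, `t₀` with the bounds.)
`Kr_tail`: let `n` be a natural number with `ε n ≥ B + 27` (say) and `C` the constant of `w_dec (n + 6)`. For each `i` (`y = A1, A2, x 2`): `a i w(a i y) ≤ H C (1 + |a i y|)^(-6) (1 + |a i y|)^(-n)` and
`1 + |a i y| ≥ H^(-3) (1 + |y|)` (`a i ≥ H^(-3)`, `H ≥ 1`), so `≤ C H · H^18 (1 + |y|)^(-6)`, and for the coordinate with `H^ε ≤ |a i y|` there is in addition the factor `H^(-ε n)`. Product: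
`C³ H^57 S^(-6) H^(-ε n) ≤ 10^15 C³ H^(57 - ε n) D3 x` (so take `ε n ≥ B + 57`).
`lat_sum`: `D3 (x + lat P v) = ∏ i, (1 + (x i + p i v i)²)⁻¹` with `p = ![1, 1, P]`, all `p i ≥ 1`. One variable: `∑' n : ℤ, (1 + (y + p n)²)⁻¹ ≤ C` uniformly in `y` and `p ≥ 1`: with `n₀ = round (-y/p)`: `|y + p n₀| ≤ p/2`, so
`|y + p n| ≥ p |n - n₀| - p/2 ≥ |n - n₀|/2` for `n ≠ n₀`, the term is at most `4 (1 + (n - n₀)²)⁻¹`. `PDecay.summable_inv_sq`, `PDecay.summable_pi` (Helper88.BD.PoissonDecay); the sum of the product is the product of the sums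
(or bound all finite partial sums as in `summable_pi`: `∑_{v ∈ s} ∏ i, g i (v i) ≤ ∏ i, ∑_n g i n`).
-/

open MeasureTheory Real Set Filter Topology
set_option autoImplicit false

namespace Pool.Agent.Helper89.GS

open Pool.Agent.Helper22.AE
open Pool.Agent.Helper92.GC
open Pool.Agent.Helper76.GS

theorem w_dec {w W : ℝ → ℝ} (hk : IsKer w W) (n : ℕ) : ∃ C : ℝ, 0 < C ∧ ∀ u, w u ≤ C * ((1 + |u|) ^ n)⁻¹ := by
  obtain ⟨C0, h0⟩ := hk.dec 0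
  obtain ⟨Cn, hn⟩ := hk.dec n
  refine ⟨2 ^ (n - 1) * (|C0| + |Cn|) + 1, by positivity, fun u => ?_⟩
  have hpos : (0 : ℝ) < (1 + |u|) ^ n := by positivity
  rw [← div_eq_mul_inv, le_div_iff₀ hpos]
  have h1 : (1 + |u|) ^ n ≤ 2 ^ (n - 1) * ((1 : ℝ) ^ n + |u| ^ n) :=
    add_pow_le zero_le_one (abs_nonneg u) n
  have hw := hk.nonneg u
  have e0 : w u ≤ |C0| := by
    have := h0 u
    rw [pow_zero, one_mul] at this
    exact this.trans (le_abs_self _)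
  have e1 : |u| ^ n * w u ≤ |Cn| := (hn u).trans (le_abs_self _)
  calc w u * (1 + |u|) ^ n ≤ w u * (2 ^ (n - 1) * ((1 : ℝ) ^ n + |u| ^ n)) :=
        mul_le_mul_of_nonneg_left h1 hw
    _ = 2 ^ (n - 1) * (w u + |u| ^ n * w u) := by rw [one_pow]; ring
    _ ≤ 2 ^ (n - 1) * (|C0| + |Cn|) := by gcongr
    _ ≤ _ := by linarith

theorem D3_ge {β t₀ : ℝ} (hβ : |β| ≤ 1 / 2) (ht : |t₀| ≤ 6) (x : Fin 3 → ℝ) :
    (((1 + |A1 β t₀ x|) * (1 + |A2 β t₀ x|) * (1 + |x 2|)) ^ 6)⁻¹ ≤ 10 ^ 15 * D3 x := by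
  set a := |A1 β t₀ x| with ha
  set b := |A2 β t₀ x| with hb
  set c := |x 2| with hc
  have ha0 : 0 ≤ a := abs_nonneg _
  have hb0 : 0 ≤ b := abs_nonneg _
  have hc0 : 0 ≤ c := abs_nonneg _
  set S := (1 + a) * (1 + b) * (1 + c) with hS
  have hSabc : 1 + a + b + c ≤ S := by
    have h1 : 0 ≤ a * b := mul_nonneg ha0 hb0
    have h2 : 0 ≤ a * c := mul_nonneg ha0 hc0
    have h3 : 0 ≤ b * c := mul_nonneg hb0 hc0
    have h4 : 0 ≤ a * b * c := mul_nonneg h1 hc0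
    rw [hS]
    nlinarith
  have hS1 : 1 ≤ S := by linarith
  have ht2 : t₀ ^ 2 ≤ 36 := by
    rw [← sq_abs]
    nlinarith [abs_nonneg t₀]
  have hx0e : x 0 = A1 β t₀ x - t₀ * A2 β t₀ x + t₀ ^ 2 * x 2 := by
    unfold A1 A2
    ring
  have hx1e : x 1 = A2 β t₀ x - 2 * t₀ * x 2 + β * x 0 := by
    unfold A2
    ring
  have hx0 : |x 0| ≤ 36 * S := by
    have e1 : |x 0| ≤ |A1 β t₀ x| + |t₀ * A2 β t₀ x| + |t₀ ^ 2 * x 2| := by
      conv_lhs => rw [hx0e]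
      exact (abs_add_le _ _).trans (add_le_add (abs_sub _ _) le_rfl)
    rw [abs_mul, abs_mul, abs_of_nonneg (sq_nonneg t₀)] at e1
    have e2 : |t₀| * b ≤ 6 * b := mul_le_mul_of_nonneg_right ht hb0
    have e3 : t₀ ^ 2 * c ≤ 36 * c := mul_le_mul_of_nonneg_right ht2 hc0
    have e4 : |x 0| ≤ a + 6 * b + 36 * c := by
      refine e1.trans ?_
      rw [← ha, ← hb, ← hc]
      linarith
    linarith
  have hx1 : |x 1| ≤ 36 * S := by
    have e1 : |x 1| ≤ |A2 β t₀ x| + |2 * t₀ * x 2| + |β * x 0| := by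
      conv_lhs => rw [hx1e]
      exact (abs_add_le _ _).trans (add_le_add (abs_sub _ _) le_rfl)
    rw [abs_mul, abs_mul, abs_mul, abs_two] at e1
    have e2 : 2 * |t₀| * c ≤ 12 * c := by
      have := mul_le_mul_of_nonneg_right ht hc0
      linarith
    have e3 : |β| * |x 0| ≤ 1 / 2 * (36 * S) :=
      mul_le_mul hβ hx0 (abs_nonneg _) (by norm_num)
    have e4 : |x 1| ≤ b + 12 * c + 18 * S := by
      refine e1.trans ?_
      rw [← hb, ← hc]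
      linarith
    linarith
  have hx2 : |x 2| ≤ 36 * S := by
    rw [← hc]
    linarith
  have hsq : ∀ y : ℝ, |y| ≤ 36 * S → 1 + y ^ 2 ≤ 1297 * S ^ 2 := by
    intro y hy
    have e1 : y ^ 2 ≤ (36 * S) ^ 2 := by
      rw [← sq_abs]
      exact pow_le_pow_left₀ (abs_nonneg y) hy 2
    nlinarith
  have hprod : (1 + x 0 ^ 2) * (1 + x 1 ^ 2) * (1 + x 2 ^ 2) ≤ 10 ^ 15 * S ^ 6 := by
    have h0 := hsq _ hx0
    have h1 := hsq _ hx1
    have h2 := hsq _ hx2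
    calc (1 + x 0 ^ 2) * (1 + x 1 ^ 2) * (1 + x 2 ^ 2)
        ≤ (1297 * S ^ 2) * (1297 * S ^ 2) * (1297 * S ^ 2) := by gcongr
      _ = 1297 ^ 3 * S ^ 6 := by ring
      _ ≤ 10 ^ 15 * S ^ 6 := by
          apply mul_le_mul_of_nonneg_right _ (by positivity)
          norm_num
  have hD : D3 x = ((1 + x 0 ^ 2) * (1 + x 1 ^ 2) * (1 + x 2 ^ 2))⁻¹ := by
    unfold D3
    rw [Fin.prod_univ_three, mul_inv, mul_inv]
  rw [hD, ← div_eq_mul_inv, inv_eq_one_div, div_le_div_iff₀ (by positivity) (by positivity), one_mul]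
  exact hprod

theorem h33_scale {w : ℝ → ℝ} {C : ℝ} {n : ℕ} (hC : 0 < C)
    (hw : ∀ u, w u ≤ C * ((1 + |u|) ^ (n + 6))⁻¹) {a m y : ℝ} (ha : 0 < a) (hm : 1 ≤ m)
    (hma : 1 ≤ m * a) :
    a * w (a * y) ≤ a * C * m ^ 6 * ((1 + |y|) ^ 6)⁻¹ * ((1 + |a * y|) ^ n)⁻¹ := by
  have h1 : 1 + |y| ≤ m * (1 + |a * y|) := by
    rw [abs_mul, abs_of_pos ha]
    have : |y| ≤ m * a * |y| := le_mul_of_one_le_left (abs_nonneg y) hma
    nlinarith
  have h2 : ((1 + |a * y|) ^ 6)⁻¹ ≤ m ^ 6 * ((1 + |y|) ^ 6)⁻¹ := by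
    rw [← div_eq_mul_inv, inv_eq_one_div, div_le_div_iff₀ (by positivity) (by positivity), one_mul,
      ← mul_pow]
    exact pow_le_pow_left₀ (by positivity) h1 6
  calc a * w (a * y) ≤ a * (C * ((1 + |a * y|) ^ (n + 6))⁻¹) :=
        mul_le_mul_of_nonneg_left (hw _) ha.le
    _ = a * C * ((1 + |a * y|) ^ 6)⁻¹ * ((1 + |a * y|) ^ n)⁻¹ := by
        rw [pow_add, mul_inv]; ring
    _ ≤ a * C * (m ^ 6 * ((1 + |y|) ^ 6)⁻¹) * ((1 + |a * y|) ^ n)⁻¹ := by gcongr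
    _ = _ := by ring

theorem Kr_dec {w W : ℝ → ℝ} (hk : IsKer w W) {β t₀ : ℝ} (hβ : |β| ≤ 1 / 2) (ht : |t₀| ≤ 6) {a : Fin 3 → ℝ} (ha : ∀ i, 0 < a i) :
    ∃ C : ℝ, 0 < C ∧ ∀ x, Kr w β t₀ a x ≤ C * D3 x := by
  obtain ⟨C, hC, hw⟩ := w_dec hk 6
  have hw' : ∀ u, w u ≤ C * ((1 + |u|) ^ (0 + 6))⁻¹ := by simpa using hw
  set m : Fin 3 → ℝ := fun i => max 1 (a i)⁻¹ with hm
  have hm1 : ∀ i, 1 ≤ m i := fun i => le_max_left _ _
  have hma : ∀ i, 1 ≤ m i * a i := fun i => by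
    have h := mul_le_mul_of_nonneg_right (le_max_right 1 (a i)⁻¹) (ha i).le
    rwa [inv_mul_cancel₀ (ha i).ne'] at h
  have key : ∀ i y, a i * w (a i * y) ≤ a i * C * m i ^ 6 * ((1 + |y|) ^ 6)⁻¹ := fun i y => by
    simpa using h33_scale hC hw' (ha i) (hm1 i) (hma i) (y := y)
  have ha0 := ha 0
  have ha1 := ha 1
  have ha2 := ha 2
  have hm0' : 0 < m 0 := by linarith [hm1 0]
  have hm1' : 0 < m 1 := by linarith [hm1 1]
  have hm2' : 0 < m 2 := by linarith [hm1 2]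
  refine ⟨(a 0 * C * m 0 ^ 6) * (a 1 * C * m 1 ^ 6) * (a 2 * C * m 2 ^ 6) * 10 ^ 15,
    by positivity, fun x => ?_⟩
  have hnn : ∀ i y, 0 ≤ a i * w (a i * y) := fun i y => mul_nonneg (ha i).le (hk.nonneg _)
  unfold Kr
  calc (a 0 * w (a 0 * A1 β t₀ x)) * (a 1 * w (a 1 * A2 β t₀ x)) * (a 2 * w (a 2 * x 2))
      ≤ (a 0 * C * m 0 ^ 6 * ((1 + |A1 β t₀ x|) ^ 6)⁻¹) *
          (a 1 * C * m 1 ^ 6 * ((1 + |A2 β t₀ x|) ^ 6)⁻¹) *
          (a 2 * C * m 2 ^ 6 * ((1 + |x 2|) ^ 6)⁻¹) := by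
        apply mul_le_mul _ (key 2 _) (hnn 2 _) (by positivity)
        exact mul_le_mul (key 0 _) (key 1 _) (hnn 1 _) (by positivity)
    _ = (a 0 * C * m 0 ^ 6) * (a 1 * C * m 1 ^ 6) * (a 2 * C * m 2 ^ 6) *
          (((1 + |A1 β t₀ x|) * (1 + |A2 β t₀ x|) * (1 + |x 2|)) ^ 6)⁻¹ := by
        rw [mul_pow, mul_pow, mul_inv, mul_inv]; ring
    _ ≤ (a 0 * C * m 0 ^ 6) * (a 1 * C * m 1 ^ 6) * (a 2 * C * m 2 ^ 6) * (10 ^ 15 * D3 x) :=
        mul_le_mul_of_nonneg_left (D3_ge hβ ht x) (by positivity)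
    _ = _ := by ring

theorem Kr_tail {w W : ℝ → ℝ} (hk : IsKer w W) {ε : ℝ} (hε : 0 < ε) (B : ℝ) : ∃ C : ℝ, 0 < C ∧ ∀ (H β t₀ : ℝ) (a x : Fin 3 → ℝ),
    1 ≤ H → |β| ≤ 1 / 2 → |t₀| ≤ 6 → (∀ i, H ^ (-3 : ℝ) ≤ a i ∧ a i ≤ H) →
      (H ^ ε ≤ |a 0 * A1 β t₀ x| ∨ H ^ ε ≤ |a 1 * A2 β t₀ x| ∨ H ^ ε ≤ |a 2 * x 2|) →
        Kr w β t₀ a x ≤ C * H ^ (-B) * D3 x := by
  obtain ⟨n, hn⟩ : ∃ n : ℕ, B + 57 ≤ ε * n := by
    refine ⟨⌈(B + 57) / ε⌉₊, ?_⟩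
    have h := Nat.le_ceil ((B + 57) / ε)
    rw [div_le_iff₀ hε] at h
    linarith
  obtain ⟨C, hC, hw⟩ := w_dec hk (n + 6)
  refine ⟨C ^ 3 * 10 ^ 15, by positivity, fun H β t₀ a x hH hβ ht ha hx => ?_⟩
  have hH0 : 0 < H := by linarith
  have hapos : ∀ i, 0 < a i := fun i => lt_of_lt_of_le (by positivity) (ha i).1
  have hm1 : (1 : ℝ) ≤ H ^ 3 := one_le_pow₀ hH
  have hma : ∀ i, 1 ≤ H ^ 3 * a i := fun i => by
    have h := mul_le_mul_of_nonneg_left (ha i).1 (by positivity : (0 : ℝ) ≤ H ^ 3)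
    have e : H ^ 3 * H ^ (-3 : ℝ) = 1 := by
      rw [← Real.rpow_natCast, ← Real.rpow_add hH0]
      norm_num
    rwa [e] at h
  set T : ℝ → ℝ := fun z => ((1 + |z|) ^ n)⁻¹ with hT
  have hT0 : ∀ z, 0 < T z := fun z => by positivity
  have hT1 : ∀ z, T z ≤ 1 := fun z => by
    apply inv_le_one_of_one_le₀
    apply one_le_pow₀
    linarith [abs_nonneg z]
  have hTt : ∀ z, H ^ ε ≤ |z| → T z ≤ H ^ (-(ε * n)) := fun z hz => by
    have h1 : H ^ (ε * n) ≤ (1 + |z|) ^ n := by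
      rw [Real.rpow_mul hH0.le, Real.rpow_natCast]
      exact pow_le_pow_left₀ (by positivity) (by linarith) n
    rw [Real.rpow_neg hH0.le]
    exact inv_anti₀ (by positivity) h1
  have key : ∀ i y, a i * w (a i * y) ≤ C * H ^ 19 * ((1 + |y|) ^ 6)⁻¹ * T (a i * y) := fun i y => by
    refine (h33_scale hC hw (hapos i) hm1 (hma i) (y := y)).trans ?_
    have e : C * H ^ 19 = H * C * (H ^ 3) ^ 6 := by ring
    rw [e]
    have := (ha i).2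
    have := hT0 (a i * y)
    gcongr
  have hTT : T (a 0 * A1 β t₀ x) * T (a 1 * A2 β t₀ x) * T (a 2 * x 2) ≤ H ^ (-(ε * n)) := by
    have hp := Real.rpow_pos_of_pos hH0 (-(ε * n))
    rcases hx with hx | hx | hx
    · calc T (a 0 * A1 β t₀ x) * T (a 1 * A2 β t₀ x) * T (a 2 * x 2)
          ≤ H ^ (-(ε * n)) * 1 * 1 := by
            apply mul_le_mul _ (hT1 _) (hT0 _).le (by positivity)
            exact mul_le_mul (hTt _ hx) (hT1 _) (hT0 _).le (by positivity)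
        _ = _ := by ring
    · calc T (a 0 * A1 β t₀ x) * T (a 1 * A2 β t₀ x) * T (a 2 * x 2)
          ≤ 1 * H ^ (-(ε * n)) * 1 := by
            apply mul_le_mul _ (hT1 _) (hT0 _).le (by positivity)
            exact mul_le_mul (hT1 _) (hTt _ hx) (hT0 _).le (by positivity)
        _ = _ := by ring
    · calc T (a 0 * A1 β t₀ x) * T (a 1 * A2 β t₀ x) * T (a 2 * x 2)
          ≤ 1 * 1 * H ^ (-(ε * n)) := by
            apply mul_le_mul _ (hTt _ hx) (hT0 _).le (by positivity)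
            exact mul_le_mul (hT1 _) (hT1 _) (hT0 _).le (by positivity)
        _ = _ := by ring
  have hnn : ∀ i y, 0 ≤ a i * w (a i * y) := fun i y => mul_nonneg (hapos i).le (hk.nonneg _)
  have hD0 : 0 ≤ D3 x := by
    unfold D3
    exact Finset.prod_nonneg fun i _ => by positivity
  have hpw : H ^ 57 * H ^ (-(ε * n)) ≤ H ^ (-B) := by
    rw [← Real.rpow_natCast, ← Real.rpow_add hH0]
    apply Real.rpow_le_rpow_of_exponent_le hH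
    push_cast
    linarith
  have h0' := hT0 (a 0 * A1 β t₀ x)
  have h1' := hT0 (a 1 * A2 β t₀ x)
  have h2' := hT0 (a 2 * x 2)
  unfold Kr
  calc (a 0 * w (a 0 * A1 β t₀ x)) * (a 1 * w (a 1 * A2 β t₀ x)) * (a 2 * w (a 2 * x 2))
      ≤ (C * H ^ 19 * ((1 + |A1 β t₀ x|) ^ 6)⁻¹ * T (a 0 * A1 β t₀ x)) *
          (C * H ^ 19 * ((1 + |A2 β t₀ x|) ^ 6)⁻¹ * T (a 1 * A2 β t₀ x)) *
          (C * H ^ 19 * ((1 + |x 2|) ^ 6)⁻¹ * T (a 2 * x 2)) := by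
        apply mul_le_mul _ (key 2 _) (hnn 2 _) (by positivity)
        exact mul_le_mul (key 0 _) (key 1 _) (hnn 1 _) (by positivity)
    _ = C ^ 3 * H ^ 57 * (((1 + |A1 β t₀ x|) * (1 + |A2 β t₀ x|) * (1 + |x 2|)) ^ 6)⁻¹ *
          (T (a 0 * A1 β t₀ x) * T (a 1 * A2 β t₀ x) * T (a 2 * x 2)) := by
        rw [mul_pow, mul_pow, mul_inv, mul_inv]; ring
    _ ≤ C ^ 3 * H ^ 57 * (10 ^ 15 * D3 x) * H ^ (-(ε * n)) := by
        apply mul_le_mul _ hTT (by positivity) (by positivity)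
        exact mul_le_mul_of_nonneg_left (D3_ge hβ ht x) (by positivity)
    _ = C ^ 3 * 10 ^ 15 * (H ^ 57 * H ^ (-(ε * n))) * D3 x := by ring
    _ ≤ C ^ 3 * 10 ^ 15 * H ^ (-B) * D3 x := by gcongr

theorem h33_one (p y : ℝ) (hp : 1 ≤ p) : ∃ n₀ : ℤ, ∀ n : ℤ,
    (1 + (y + p * n) ^ 2)⁻¹ ≤ 4 * (1 + ((n - n₀ : ℤ) : ℝ) ^ 2)⁻¹ := by
  have hp0 : 0 < p := by linarith
  refine ⟨round (-y / p), fun n => ?_⟩
  set n₀ := round (-y / p) with hn₀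
  have h1 : |-y / p - n₀| ≤ 1 / 2 := abs_sub_round _
  have h2 : |y + p * n₀| ≤ p / 2 := by
    have e : y + p * n₀ = -(p * (-y / p - n₀)) := by
      field_simp
      ring
    rw [e, abs_neg, abs_mul, abs_of_pos hp0]
    nlinarith
  have h3 : ((n - n₀ : ℤ) : ℝ) ^ 2 / 4 ≤ (y + p * n) ^ 2 := by
    by_cases hn : n = n₀
    · subst hn
      simp
      positivity
    · have h4 : (1 : ℝ) ≤ |((n - n₀ : ℤ) : ℝ)| := by
        have h5 : 1 ≤ |n - n₀| := Int.one_le_abs (sub_ne_zero.2 hn)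
        exact_mod_cast h5
      have h6 : |((n - n₀ : ℤ) : ℝ)| / 2 ≤ |y + p * n| := by
        have e : y + p * n = (y + p * n₀) + p * ((n - n₀ : ℤ) : ℝ) := by
          push_cast
          ring
        have h7 : |p * ((n - n₀ : ℤ) : ℝ)| - |y + p * n₀| ≤ |y + p * n| := by
          have h8 : p * ((n - n₀ : ℤ) : ℝ) = (y + p * n) - (y + p * n₀) := by
            rw [e]; ring
          have h9 := abs_sub (y + p * n) (y + p * n₀)
          rw [← h8] at h9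
          linarith
        rw [abs_mul, abs_of_pos hp0] at h7
        nlinarith
      have h7 := pow_le_pow_left₀ (by positivity) h6 2
      rw [sq_abs, div_pow, sq_abs] at h7
      linarith
  rw [← div_eq_mul_inv, inv_eq_one_div, div_le_div_iff₀ (by positivity) (by positivity)]
  linarith

theorem lat_sum : ∃ C : ℝ, 0 < C ∧ ∀ P : ℝ, 1 ≤ P → ∀ x : Fin 3 → ℝ,
    Summable (fun v : Fin 3 → ℤ => D3 (x + lat P v)) ∧ ∑' v : Fin 3 → ℤ, D3 (x + lat P v) ≤ C := by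
  set G : ℤ → ℝ := fun n => 4 * (1 + (n : ℝ) ^ 2)⁻¹ with hG
  have hG0 : ∀ n, 0 ≤ G n := fun n => by positivity
  have hGs : Summable G := Pool.Agent.Helper88.BD.PDecay.summable_inv_sq.mul_left 4
  have hGp : Summable (fun v : Fin 3 → ℤ => ∏ i, G (v i)) :=
    Pool.Agent.Helper88.BD.PDecay.summable_pi hG0 hGs
  have hC0 : 0 ≤ ∑' v : Fin 3 → ℤ, ∏ i, G (v i) :=
    tsum_nonneg fun v => Finset.prod_nonneg fun i _ => hG0 _
  refine ⟨∑' v : Fin 3 → ℤ, ∏ i, G (v i) + 1, by linarith, fun P hP x => ?_⟩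
  obtain ⟨n0, hn0⟩ := h33_one 1 (x 0) le_rfl
  obtain ⟨n1, hn1⟩ := h33_one 1 (x 1) le_rfl
  obtain ⟨n2, hn2⟩ := h33_one P (x 2) hP
  set m : Fin 3 → ℤ := ![n0, n1, n2] with hm
  have hle : ∀ v : Fin 3 → ℤ, D3 (x + lat P v) ≤ ∏ i, G ((v - m) i) := by
    intro v
    unfold D3
    rw [Fin.prod_univ_three, Fin.prod_univ_three]
    have e0 := hn0 (v 0)
    have e1 := hn1 (v 1)
    have e2 := hn2 (v 2)
    rw [one_mul] at e0 e1
    have f0 : (x + lat P v) 0 = x 0 + v 0 := by simp [lat]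
    have f1 : (x + lat P v) 1 = x 1 + v 1 := by simp [lat]
    have f2 : (x + lat P v) 2 = x 2 + P * v 2 := by simp [lat]
    have g0 : G ((v - m) 0) = 4 * (1 + ((v 0 - n0 : ℤ) : ℝ) ^ 2)⁻¹ := by simp [hG, hm]
    have g1 : G ((v - m) 1) = 4 * (1 + ((v 1 - n1 : ℤ) : ℝ) ^ 2)⁻¹ := by simp [hG, hm]
    have g2 : G ((v - m) 2) = 4 * (1 + ((v 2 - n2 : ℤ) : ℝ) ^ 2)⁻¹ := by simp [hG, hm]
    rw [f0, f1, f2, g0, g1, g2]
    apply mul_le_mul _ e2 (by positivity) (by positivity)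
    exact mul_le_mul e0 e1 (by positivity) (by positivity)
  have hs' : Summable (fun v : Fin 3 → ℤ => ∏ i, G ((v - m) i)) :=
    ((Equiv.subRight m).summable_iff (f := fun v : Fin 3 → ℤ => ∏ i, G (v i))).2 hGp
  have hD0 : ∀ v, 0 ≤ D3 (x + lat P v) := fun v => by
    unfold D3
    exact Finset.prod_nonneg fun i _ => by positivity
  have hs : Summable (fun v : Fin 3 → ℤ => D3 (x + lat P v)) := Summable.of_nonneg_of_le hD0 hle hs'
  refine ⟨hs, ?_⟩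
  have h1 := hs.tsum_le_tsum hle hs'
  have h2 : ∑' v : Fin 3 → ℤ, ∏ i, G ((v - m) i) = ∑' v : Fin 3 → ℤ, ∏ i, G (v i) :=
    (Equiv.subRight m).tsum_eq (fun v : Fin 3 → ℤ => ∏ i, G (v i))
  linarith

end Pool.Agent.Helper89.GS
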