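import Pool.Agent.Helper89.GS.C1
import Pool.Agent.Helper89.GS.C2

/-!
# GS-C3: Poisson summation for the kernel

PROOFS. `Kp_sum`: `Kr_dec`, `lat_sum`, `Kr_nonneg`. `Wh_nonneg`, `Wh_le`: `Wnn`, `W_le`. `Wh_zero`: `W_zero` (all the arguments are `0`; `dlat P 0 = 0`).
`Wh_supp`: if `Wh ≠ 0` then `|e1| < a 0`, `|e2| < a 1`, `|e3| < a 2` (`zero`; `a i > 0`). With `ξ = dlat P k`: `|ξ 1| ≤ |e2| + 6 |e1| ≤ 7H`, `|ξ 0| ≤ |e1| + |ξ 1|/2 ≤ 5H`, `|ξ 2| ≤ |e3| + 12 |ξ 1| + 36 |e1| ≤ 121 H`, so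
`|k 2| ≤ 121 H P ≤ 2000 H^4`.
`poisson_Kr`: `Helper88.BD.poisson_decay` for `d = Fin 3` and `f y = Kr (x + ![y 0, y 1, P y 2])` (continuous; `‖f y‖ ≤ C ∏ (1 + y i ^ 2)⁻¹` from `Kr_dec` and
`(1 + (x + p y)²)⁻¹ ≤ C_x (1 + y²)⁻¹` for `p ≥ 1` (`PDecay.shift_bound` gives `(1 + (x + v)²)⁻¹ ≤ 2 (1 + x²)(1 + v²)⁻¹`, `v = p y`, `1 + (p y)² ≥ 1 + y²`)). Its Fourier coefficient is
`∫ chr k y * f y = (1/P) Wh W β t₀ a (dlat P k) * ee (sc (dlat P k) x)`: `Helper52.Circle.chr_eq` (`chr k y = exp(-2 π i ∑ k i y i) = ee (-(∑ ..))`), substitution `z = x + ![y 0, y 1, P y 2]`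
(translation invariance; the diagonal linear map has determinant `P > 0`: `Measure.addHaar_preimage_smul`-like, `Real.map_linearMap_volume_pi_eq_smul_volume_pi`, or `integral_comp` of `Measure.pi`
maps coordinate by coordinate; e.g. `Measure.map_linearMap_addHaar_eq_smul_addHaar`), and `four_Kr`. By `Wh_supp` only the `k ∈ bx3 N` contribute: the family of coefficients has finite support, so it is summable and its sum
is the finite sum (`hasSum_sum_of_ne_finset_zero`), and `HasSum` is unique. The values of `f` at the lattice points: `x + lat P v`.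
-/

open MeasureTheory Real Set Filter Topology

set_option autoImplicit false

namespace Pool.Agent.Helper89.GS

open Pool.Agent.Helper22.AE
open Pool.Agent.Helper92.GC
open Pool.Agent.Helper76.GS

theorem Kp_sum {w W : ℝ → ℝ} (hk : IsKer w W) {β t₀ : ℝ} (hβ : |β| ≤ 1 / 2) (ht : |t₀| ≤ 6) {a : Fin 3 → ℝ} (ha : ∀ i, 0 < a i)
    {P : ℝ} (hP : 1 ≤ P) (x : Fin 3 → ℝ) : Summable (fun v : Fin 3 → ℤ => Kr w β t₀ a (x + lat P v)) := by
  obtain ⟨C, _, h⟩ := Kr_dec hk hβ ht ha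
  obtain ⟨_, _, h'⟩ := lat_sum
  exact Summable.of_nonneg_of_le (fun v => Kr_nonneg hk β t₀ ha _) (fun v => h _)
    ((h' P hP x).1.mul_left C)

theorem Wh_nonneg {w W : ℝ → ℝ} (hk : IsKer w W) (β t₀ : ℝ) (a ξ : Fin 3 → ℝ) : 0 ≤ Wh W β t₀ a ξ := by
  unfold Wh
  exact mul_nonneg (mul_nonneg (hk.Wnn _) (hk.Wnn _)) (hk.Wnn _)

theorem Wh_le {w W : ℝ → ℝ} (hk : IsKer w W) (β t₀ : ℝ) (a ξ : Fin 3 → ℝ) : Wh W β t₀ a ξ ≤ 1 := by
  unfold Wh
  exact mul_le_one₀ (mul_le_one₀ (W_le hk _) (hk.Wnn _) (W_le hk _)) (hk.Wnn _) (W_le hk _)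

theorem Wh_zero {w W : ℝ → ℝ} (hk : IsKer w W) (β t₀ : ℝ) (a : Fin 3 → ℝ) (P : ℝ) : Wh W β t₀ a (dlat P 0) = 1 := by
  have h0 : dlat P 0 = 0 := by
    funext i
    fin_cases i <;> simp [dlat]
  have h1 : e1 β (0 : Fin 3 → ℝ) = 0 := by simp [e1]
  have h2 : e2 β t₀ (0 : Fin 3 → ℝ) = 0 := by simp [e2, h1]
  have h3 : e3 β t₀ (0 : Fin 3 → ℝ) = 0 := by simp [e3, h1]
  rw [h0, Wh, h1, h2, h3, zero_div, zero_div, zero_div, W_zero hk]
  norm_num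

private theorem lt68 {w W : ℝ → ℝ} (hk : IsKer w W) {e a : ℝ} (ha : 0 < a) (h : W (e / a) ≠ 0) :
    |e| ≤ a := by
  by_contra hcon
  push Not at hcon
  apply h
  apply hk.zero
  rw [abs_div, abs_of_pos ha, le_div_iff₀ ha]
  linarith

private theorem mem68 {k : Fin 3 → ℤ} {X : ℝ} (h : ∀ i, |(k i : ℝ)| ≤ X) : k ∈ bx3 ⌈X⌉₊ := by
  rw [bx3, Fintype.mem_piFinset]
  intro i
  have h1 : |(k i : ℝ)| ≤ (⌈X⌉₊ : ℝ) := (h i).trans (Nat.le_ceil X)
  have h2 := abs_le.mp h1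
  rw [Finset.mem_Icc]
  constructor
  · have h3 : ((-(⌈X⌉₊ : ℤ) : ℤ) : ℝ) ≤ (k i : ℝ) := by
      push_cast
      exact h2.1
    exact_mod_cast h3
  · have h3 : (k i : ℝ) ≤ (((⌈X⌉₊ : ℕ) : ℤ) : ℝ) := by
      push_cast
      exact h2.2
    exact_mod_cast h3

theorem Wh_supp {w W : ℝ → ℝ} (hk : IsKer w W) {H β t₀ P : ℝ} (hH : 1 ≤ H) (hβ : |β| ≤ 1 / 2) (ht : |t₀| ≤ 6) {a : Fin 3 → ℝ}
    (ha : ∀ i, 0 < a i) (haH : ∀ i, a i ≤ H) (hP : 1 ≤ P) (hPH : P ≤ 16 * H ^ 3) (k : Fin 3 → ℤ)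
    (h : Wh W β t₀ a (dlat P k) ≠ 0) : |e1 β (dlat P k)| ≤ a 0 ∧ |e2 β t₀ (dlat P k)| ≤ a 1 ∧ |e3 β t₀ (dlat P k)| ≤ a 2 ∧
      k ∈ bx3 ⌈2000 * H ^ 4⌉₊ := by
  unfold Wh at h
  have hW3 := right_ne_zero_of_mul h
  have hW12 := left_ne_zero_of_mul h
  have h1 := lt68 hk (ha 0) (left_ne_zero_of_mul hW12)
  have h2 := lt68 hk (ha 1) (right_ne_zero_of_mul hW12)
  have h3 := lt68 hk (ha 2) hW3
  refine ⟨h1, h2, h3, mem68 ?_⟩
  have hk0 : dlat P k 0 = (k 0 : ℝ) := by simp [dlat]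
  have hk1 : dlat P k 1 = (k 1 : ℝ) := by simp [dlat]
  have hk2 : dlat P k 2 = (k 2 : ℝ) / P := by simp [dlat]
  have hP0 : (0 : ℝ) < P := by linarith
  have h1' := h1.trans (haH 0)
  have h2' := h2.trans (haH 1)
  have h3' := h3.trans (haH 2)
  set E1 := e1 β (dlat P k) with hE1
  set E2 := e2 β t₀ (dlat P k) with hE2
  set E3 := e3 β t₀ (dlat P k) with hE3
  have e1' : (k 0 : ℝ) = E1 - β * (k 1 : ℝ) := by
    rw [hE1, e1, hk0, hk1]
    ring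
  have e2' : (k 1 : ℝ) = E2 + t₀ * E1 := by
    rw [hE2, e2, hk1]
    ring
  have e3' : (k 2 : ℝ) / P = E3 + (2 * t₀ * (k 1 : ℝ) - t₀ ^ 2 * E1) := by
    rw [hE3, e3, hk1, hk2]
    ring
  have b1 : |(k 1 : ℝ)| ≤ 7 * H := by
    rw [e2']
    refine (abs_add_le _ _).trans ?_
    rw [abs_mul]
    have h4 : |t₀| * |E1| ≤ 6 * H := mul_le_mul ht h1' (abs_nonneg _) (by norm_num)
    linarith
  have b0 : |(k 0 : ℝ)| ≤ 5 * H := by
    rw [e1']
    refine (abs_sub _ _).trans ?_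
    rw [abs_mul]
    have h4 : |β| * |(k 1 : ℝ)| ≤ 1 / 2 * (7 * H) := mul_le_mul hβ b1 (abs_nonneg _) (by norm_num)
    linarith
  have b2 : |(k 2 : ℝ) / P| ≤ 121 * H := by
    rw [e3']
    refine (abs_add_le _ _).trans ?_
    have h4 : |2 * t₀ * (k 1 : ℝ) - t₀ ^ 2 * E1| ≤ 120 * H := by
      refine (abs_sub _ _).trans ?_
      rw [abs_mul, abs_mul, abs_mul, abs_pow, abs_of_pos (by norm_num : (0 : ℝ) < 2)]
      have h5 : 2 * |t₀| * |(k 1 : ℝ)| ≤ 2 * 6 * (7 * H) :=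
        mul_le_mul (by linarith) b1 (abs_nonneg _) (by norm_num)
      have h6 : |t₀| ^ 2 * |E1| ≤ 6 ^ 2 * H :=
        mul_le_mul (pow_le_pow_left₀ (abs_nonneg _) ht 2) h1' (abs_nonneg _) (by norm_num)
      linarith
    linarith
  have hH4 : H ≤ H ^ 4 := le_self_pow₀ hH (by norm_num)
  intro i
  fin_cases i
  · show |(k 0 : ℝ)| ≤ _
    nlinarith
  · show |(k 1 : ℝ)| ≤ _
    nlinarith
  · show |(k 2 : ℝ)| ≤ _
    rw [abs_div, abs_of_pos hP0, div_le_iff₀ hP0] at b2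
    have h5 : 121 * H * P ≤ 121 * H * (16 * H ^ 3) :=
      mul_le_mul_of_nonneg_left hPH (by linarith)
    have h6 : 121 * H * (16 * H ^ 3) = 1936 * H ^ 4 := by ring
    have h7 : (0 : ℝ) ≤ H ^ 4 := by positivity
    linarith

/-- the map `y ↦ (y 0, y 1, P y 2)` -/
private def dg68 (P : ℝ) (y : Fin 3 → ℝ) : Fin 3 → ℝ := ![y 0, y 1, P * y 2]

private def M68 (P : ℝ) : Matrix (Fin 3) (Fin 3) ℝ := !![1, 0, 0; 0, 1, 0; 0, 0, P]

private theorem det68 (P : ℝ) : (M68 P).det = P := by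
  unfold M68
  rw [Matrix.det_fin_three]
  simp

private theorem app68 (P : ℝ) (y : Fin 3 → ℝ) : Matrix.toLin' (M68 P) y = dg68 P y := by
  unfold M68 dg68
  rw [Matrix.toLin'_apply]
  ext i
  fin_cases i <;> simp [Matrix.mulVec, dotProduct, Fin.sum_univ_three]

private theorem integral_dg68 {P : ℝ} (hP : 0 < P) (x : Fin 3 → ℝ) (G : (Fin 3 → ℝ) → ℂ) :
    ∫ y : Fin 3 → ℝ, G (x + dg68 P y) = ((1 / P : ℝ) : ℂ) * ∫ z : Fin 3 → ℝ, G z := by
  have hdet : LinearMap.det (Matrix.toLin' (M68 P)) ≠ 0 := by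
    rw [LinearMap.det_toLin', det68]
    exact hP.ne'
  have hmap := Real.map_matrix_volume_pi_eq_smul_volume_pi (M := M68 P) (by rw [det68]; exact hP.ne')
  rw [det68] at hmap
  let e := ((Matrix.toLin' (M68 P)).equivOfDetNeZero hdet).toContinuousLinearEquiv
  have he : MeasurableEmbedding (Matrix.toLin' (M68 P)) := e.toHomeomorph.measurableEmbedding
  have h := he.integral_map (μ := (volume : Measure (Fin 3 → ℝ))) (fun z => G (x + z))
  rw [hmap, integral_smul_measure] at h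
  simp_rw [app68] at h
  rw [← h, integral_add_left_eq_self (fun z => G z) x, abs_of_pos (inv_pos.mpr hP),
    ENNReal.toReal_ofReal (inv_pos.mpr hP).le, Complex.real_smul, one_div]

private theorem chr68 {P : ℝ} (hP : 0 < P) (k : Fin 3 → ℤ) (x y : Fin 3 → ℝ) :
    Helper52.Circle.chr k y = ee (-(sc (dlat P k) (x + dg68 P y))) * ee (sc (dlat P k) x) := by
  rw [Helper52.Circle.chr_eq, ← ee_add]
  unfold ee
  congr 1
  have h1 : -(sc (dlat P k) (x + dg68 P y)) + sc (dlat P k) x = -(∑ i, (k i : ℝ) * y i) := by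
    rw [Fin.sum_univ_three]
    simp only [sc, dlat, dg68, Pi.add_apply, Matrix.cons_val_zero, Matrix.cons_val_one,
      Matrix.cons_val]
    field_simp
    ring
  rw [h1]
  push_cast
  ring

theorem poisson_Kr {w W : ℝ → ℝ} (hk : IsKer w W) {H β t₀ P : ℝ} (hH : 1 ≤ H) (hβ : |β| ≤ 1 / 2) (ht : |t₀| ≤ 6) {a : Fin 3 → ℝ}
    (ha : ∀ i, 0 < a i) (haH : ∀ i, a i ≤ H) (hP : 1 ≤ P) (hPH : P ≤ 16 * H ^ 3) (x : Fin 3 → ℝ) :
    ((Kp w β t₀ a P x : ℝ) : ℂ) =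
      ∑ k ∈ bx3 ⌈2000 * H ^ 4⌉₊, ((1 / P * Wh W β t₀ a (dlat P k) : ℝ) : ℂ) * ee (sc (dlat P k) x) := by
  have hP0 : (0 : ℝ) < P := by linarith
  obtain ⟨C, hC0, hC⟩ := Kr_dec hk hβ ht ha
  set f : (Fin 3 → ℝ) → ℂ := fun y => ((Kr w β t₀ a (x + dg68 P y) : ℝ) : ℂ) with hf
  have hdg : Continuous (dg68 P) := by
    refine continuous_pi fun i => ?_
    fin_cases i
    · show Continuous fun y : Fin 3 → ℝ => y 0
      fun_prop
    · show Continuous fun y : Fin 3 → ℝ => y 1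
      fun_prop
    · show Continuous fun y : Fin 3 → ℝ => P * y 2
      fun_prop
  have hfc : Continuous f :=
    Complex.continuous_ofReal.comp ((Kr_cont hk β t₀ a).comp (continuous_const.add hdg))
  have hfb : ∀ y, ‖f y‖ ≤ (C * ∏ i, 2 * (1 + x i ^ 2)) * ∏ i, (1 + y i ^ 2)⁻¹ := by
    intro y
    rw [hf]
    dsimp only
    rw [Complex.norm_real, Real.norm_of_nonneg (Kr_nonneg hk β t₀ ha _)]
    refine (hC _).trans ?_
    rw [mul_assoc, ← Finset.prod_mul_distrib]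
    refine mul_le_mul_of_nonneg_left ?_ hC0.le
    unfold D3
    refine Finset.prod_le_prod (fun i _ => by positivity) fun i _ => ?_
    refine (Pool.Agent.Helper88.BD.PDecay.shift_bound (x i) (dg68 P y i)).trans ?_
    refine mul_le_mul_of_nonneg_left ?_ (by positivity)
    refine inv_anti₀ (by positivity) ?_
    have h1 : y i ^ 2 ≤ dg68 P y i ^ 2 := by
      fin_cases i
      · exact le_refl (y 0 ^ 2)
      · exact le_refl (y 1 ^ 2)
      · show y 2 ^ 2 ≤ (P * y 2) ^ 2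
        rw [mul_pow]
        exact le_mul_of_one_le_left (sq_nonneg _) (one_le_pow₀ hP)
    linarith
  have hcoef : ∀ k : Fin 3 → ℤ, ∫ y, Helper52.Circle.chr k y * f y =
      ((1 / P * Wh W β t₀ a (dlat P k) : ℝ) : ℂ) * ee (sc (dlat P k) x) := by
    intro k
    have h1 : ∀ y, Helper52.Circle.chr k y * f y =
        ee (sc (dlat P k) x) * (fun z : Fin 3 → ℝ => ((Kr w β t₀ a z : ℝ) : ℂ) *
          ee (-(sc (dlat P k) z))) (x + dg68 P y) := by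
      intro y
      rw [chr68 hP0 k x y]
      dsimp only [hf]
      ring
    simp_rw [h1]
    rw [integral_const_mul, integral_dg68 hP0 x (fun z : Fin 3 → ℝ => ((Kr w β t₀ a z : ℝ) : ℂ) *
          ee (-(sc (dlat P k) z))), four_Kr hk β t₀ ha]
    push_cast
    ring
  have hz : ∀ k ∉ bx3 ⌈2000 * H ^ 4⌉₊,
      ((1 / P * Wh W β t₀ a (dlat P k) : ℝ) : ℂ) * ee (sc (dlat P k) x) = 0 := by
    intro k hk'
    have h1 : Wh W β t₀ a (dlat P k) = 0 := by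
      by_contra hne
      exact hk' (Wh_supp hk hH hβ ht ha haH hP hPH k hne).2.2.2
    rw [h1, mul_zero, Complex.ofReal_zero, zero_mul]
  have hsum : HasSum (fun k : Fin 3 → ℤ =>
      ((1 / P * Wh W β t₀ a (dlat P k) : ℝ) : ℂ) * ee (sc (dlat P k) x))
      (∑ k ∈ bx3 ⌈2000 * H ^ 4⌉₊,
        ((1 / P * Wh W β t₀ a (dlat P k) : ℝ) : ℂ) * ee (sc (dlat P k) x)) :=
    hasSum_sum_of_ne_finset_zero hz
  have hs : HasSum (fun k : Fin 3 → ℤ => ∫ y, Helper52.Circle.chr k y * f y)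
      (∑ k ∈ bx3 ⌈2000 * H ^ 4⌉₊,
        ((1 / P * Wh W β t₀ a (dlat P k) : ℝ) : ℂ) * ee (sc (dlat P k) x)) := by
    rw [funext hcoef]
    exact hsum
  have hp := Pool.Agent.Helper88.BD.poisson_decay f hfc hfb hs.summable
  rw [hs.unique hp, Kp, Complex.ofReal_tsum]
  rfl

end Pool.Agent.Helper89.GS
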