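import Pool.Agent.Helper89.GS.C3

/-!
# GS-C4: the cutoff as a finite exponential sum

PROOFS. `xp_single`, `xp_fsum`: `Finsupp.sum_single_index`, `Finsupp.sum_finset_sum_index` (`0 * _ = 0`, `add_mul`).
`cf_norm`: `‖∫ in S‖ ≤ volume S ≤ volume (Tq ×ˢ Icc 0 P) = P` (`norm_setIntegral_le_of_norm_le_const`, `ee_norm`; `Measure.volume_eq_prod`, `Measure.prod_prod`).
`bb_supp`: an element of the support of a sum of `single`s is one of the `k`'s with non zero coefficient (`Finsupp.support_finset_sum`-like, `Finsupp.support_single_subset`), hence `Wh ≠ 0`.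
`bb_Bx`: `bb_supp`, `Wh_supp` with `dlat P k = ![k 0, k 1, k 2 / P]`, `uu β (k 0, k 1) = e1 β (dlat P k)` etc. (all by `simp`/`ring`), `a = ![H^(1-2ε), H^(1-2ε) s, H^(1-2ε) s²]`.
`bb_l1`: `l1` is subadditive, `l1 (single x z) = ‖z‖` (prove for the finite sum: `l1 (∑ single) ≤ ∑ ‖coefficient‖`; e.g. `l1 f = ∑ x ∈ f.support, ‖f x‖ ≤ ∑_{x ∈ T} ‖f x‖` for a finset `T ⊇ support`, and triangle inequality),
coefficient `≤ (1/P) · 1 · P = 1` (`Wh_le`, `cf_norm`), `card (bx3 N) = (2N+1)^3` and `2 ⌈2000 H^4⌉₊ + 1 ≤ 4003 H^4`.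
`xp_bb`: `xp (bb ..) q = ∑ k, (1/P) Wh cf k ee (sc (dlat P k) (vec q))` (`dt (k 0, k 1) q.1 + q.2 * (k 2 / P) = sc (dlat P k) (vec q)`), `cf k = ∫ y in S, ee (-(sc (dlat P k) (vec y)))`; pull everything into the integral
(`integral_const_mul`, `integral_finset_sum`; bounded continuous functions on a set of finite measure are integrable), `ee_add`, `sc ξ (x - y) = sc ξ x - sc ξ y`, and `poisson_Kr` at `x = vec q - vec y`; `integral_ofReal`.
`Kp_cont`: by `poisson_Kr` the function `x ↦ (Kp x : ℂ)` is a finite sum of continuous functions; take the real part.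
`Kp_one`: the same expansion: `∫ y in Tq ×ˢ Icc 0 P, ee (-(sc (dlat P k) (vec y)))` is the product of three integrals (`Measure.prod_restrict`, `integral_prod_mul`) of `ee (-(k 0 x))`, `ee (-(k 1 x))` over `Icc 0 1`, and of
`ee (-((k 2 / P) x))` over `Icc 0 P`; it vanishes unless `k = 0` (`Helper92.GC.ee_int` in R0 for the first two; substitution for the third) and equals `P` for `k = 0`; `Wh_zero`; `0 ∈ bx3 N`.
`Kp_nonneg`: `tsum_nonneg`, `Kr_nonneg`.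
-/

open MeasureTheory Real Set Filter Topology

set_option autoImplicit false

namespace Pool.Agent.Helper89.GS

open Pool.Agent.Helper22.AE
open Pool.Agent.Helper92.GC
open Pool.Agent.Helper76.GS

/-- the Fourier coefficients of the set `E` on the torus `ℝ² / ℤ² × ℝ / P ℤ` -/
noncomputable def cf (E : Set ((ℝ × ℝ) × ℝ)) (P : ℝ) (k : Fin 3 → ℤ) : ℂ :=
  ∫ y in (Tq ×ˢ Icc (0 : ℝ) P) ∩ E, ee (-(sc (dlat P k) (vec y)))

/-- the cutoff -/
noncomputable def bb (W : ℝ → ℝ) (β t₀ : ℝ) (a : Fin 3 → ℝ) (E : Set ((ℝ × ℝ) × ℝ)) (P : ℝ) (N : ℕ) : Xp :=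
  ∑ k ∈ bx3 N, Finsupp.single ((k 0, k 1), (k 2 : ℝ) / P) (((1 / P * Wh W β t₀ a (dlat P k) : ℝ) : ℂ) * cf E P k)

theorem xp_single (x : (ℤ × ℤ) × ℝ) (z : ℂ) (q : (ℝ × ℝ) × ℝ) :
    xp (Finsupp.single x z) q = z * ee (dt x.1 q.1 + q.2 * x.2) := by
  unfold xp
  rw [Finsupp.sum_single_index]
  rw [zero_mul]

theorem xp_fsum {ι : Type} (S : Finset ι) (a : ι → Xp) (q : (ℝ × ℝ) × ℝ) : xp (∑ i ∈ S, a i) q = ∑ i ∈ S, xp (a i) q := by
  unfold xp
  refine (Finsupp.sum_finsetSum_index ?_ ?_).symm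
  · intro x
    rw [zero_mul]
  · intro x z z'
    rw [add_mul]

private theorem fin_box97 {P : ℝ} : volume (Tq ×ˢ Icc (0 : ℝ) P) = ENNReal.ofReal P := by
  unfold Tq
  rw [Measure.volume_eq_prod, Measure.prod_prod, Measure.volume_eq_prod, Measure.prod_prod]
  simp only [Real.volume_Icc, sub_zero, ENNReal.ofReal_one, one_mul]

theorem cf_norm {E : Set ((ℝ × ℝ) × ℝ)} (hE : MeasurableSet E) {P : ℝ} (hP : 0 ≤ P) (k : Fin 3 → ℤ) : ‖cf E P k‖ ≤ P := by
  unfold cf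
  have h1 : volume ((Tq ×ˢ Icc (0 : ℝ) P) ∩ E) ≤ ENNReal.ofReal P :=
    (measure_mono inter_subset_left).trans fin_box97.le
  have h2 : volume ((Tq ×ˢ Icc (0 : ℝ) P) ∩ E) < ⊤ := h1.trans_lt ENNReal.ofReal_lt_top
  refine (norm_setIntegral_le_of_norm_le_const (C := 1) h2 fun y _ => (ee_norm _).le).trans ?_
  rw [one_mul, Measure.real]
  exact ENNReal.toReal_le_of_le_ofReal hP h1

private theorem bb_supp97 {W : ℝ → ℝ} {β t₀ : ℝ} {a : Fin 3 → ℝ} {E : Set ((ℝ × ℝ) × ℝ)} {P : ℝ} {N : ℕ}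
    {x : (ℤ × ℤ) × ℝ} (hx : x ∈ (bb W β t₀ a E P N).support) : ∃ k : Fin 3 → ℤ, k ∈ bx3 N ∧ x = ((k 0, k 1), (k 2 : ℝ) / P) ∧
      Wh W β t₀ a (dlat P k) ≠ 0 := by
  classical
  unfold bb at hx
  rw [Finsupp.mem_support_iff, Finsupp.finsetSum_apply] at hx
  obtain ⟨k, hk, hne⟩ := Finset.exists_ne_zero_of_sum_ne_zero hx
  rw [Finsupp.single_apply] at hne
  split_ifs at hne with h
  · refine ⟨k, hk, h.symm, fun h0 => hne ?_⟩
    rw [h0, mul_zero, Complex.ofReal_zero, zero_mul]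
  · exact absurd rfl hne

theorem bb_Bx {w W : ℝ → ℝ} (hk : IsKer w W) {ε H β t₀ s P : ℝ} (hε : 0 < ε) (hH : 1 ≤ H) (hβ : |β| ≤ 1 / 2) (ht : |t₀| ≤ 6) (hs : 0 < s)
    (hs1 : s ≤ 1) (hP : 1 ≤ P) (hPH : P ≤ 16 * H ^ 3) (E : Set ((ℝ × ℝ) × ℝ)) (N : ℕ) :
    Bx β H (2 * ε) t₀ s (bb W β t₀ ![H ^ (1 - 2 * ε), H ^ (1 - 2 * ε) * s, H ^ (1 - 2 * ε) * s ^ 2] E P N) := by
  intro x hx
  obtain ⟨k, -, rfl, hne⟩ := bb_supp97 hx
  have hH0 : 0 < H := by linarith
  have hpos : 0 < H ^ (1 - 2 * ε) := rpow_pos_of_pos hH0 _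
  have hle : H ^ (1 - 2 * ε) ≤ H := by
    calc H ^ (1 - 2 * ε) ≤ H ^ (1 : ℝ) := rpow_le_rpow_of_exponent_le hH (by linarith)
      _ = H := rpow_one H
  have hs2 : s ^ 2 ≤ 1 := by nlinarith
  obtain ⟨h1, h2, h3, -⟩ := Wh_supp hk hH hβ ht (a := ![H ^ (1 - 2 * ε), H ^ (1 - 2 * ε) * s, H ^ (1 - 2 * ε) * s ^ 2])
    (by
      intro i
      fin_cases i
      · exact hpos
      · exact mul_pos hpos hs
      · exact mul_pos hpos (pow_pos hs 2))
    (by
      intro i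
      fin_cases i
      · exact hle
      · change H ^ (1 - 2 * ε) * s ≤ H
        nlinarith
      · change H ^ (1 - 2 * ε) * s ^ 2 ≤ H
        nlinarith [pow_pos hs 2]) hP hPH k hne
  unfold e3 at h3
  unfold e2 at h2
  unfold e1 at h1 h2 h3
  simp only [dlat, Matrix.cons_val_zero, Matrix.cons_val_one, Matrix.cons_val] at h1 h2 h3
  unfold uu
  exact ⟨h1, h2, h3⟩

private theorem l1_add97 (f g : Xp) : l1 (f + g) ≤ l1 f + l1 g := by
  classical
  have key : ∀ h : Xp, h.support ⊆ f.support ∪ g.support → l1 h = ∑ x ∈ f.support ∪ g.support, ‖h x‖ := by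
    intro h hh
    unfold l1
    exact Finsupp.sum_of_support_subset h hh _ fun x _ => norm_zero
  rw [key f Finset.subset_union_left, key g Finset.subset_union_right, key (f + g) Finsupp.support_add,
    ← Finset.sum_add_distrib]
  refine Finset.sum_le_sum fun x _ => ?_
  rw [Finsupp.add_apply]
  exact norm_add_le _ _

private theorem l1_single97 (x : (ℤ × ℤ) × ℝ) (z : ℂ) : l1 (Finsupp.single x z) = ‖z‖ := by
  unfold l1
  rw [Finsupp.sum_single_index]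
  exact norm_zero

private theorem l1_sum97 {ι : Type} (S : Finset ι) (x : ι → (ℤ × ℤ) × ℝ) (z : ι → ℂ) {C : ℝ} (hz : ∀ i ∈ S, ‖z i‖ ≤ C) :
    l1 (∑ i ∈ S, Finsupp.single (x i) (z i)) ≤ S.card * C := by
  classical
  induction S using Finset.induction_on with
  | empty =>
    rw [Finset.sum_empty, Finset.card_empty, Nat.cast_zero, zero_mul]
    exact le_of_eq Finsupp.sum_zero_index
  | insert i S hi ih =>
    rw [Finset.sum_insert hi, Finset.card_insert_of_notMem hi]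
    have h1 := ih fun j hj => hz j (Finset.mem_insert_of_mem hj)
    have h2 := hz i (Finset.mem_insert_self _ _)
    refine (l1_add97 _ _).trans ?_
    rw [l1_single97]
    push_cast
    linarith

private theorem card_bx97 (N : ℕ) : (bx3 N).card = (2 * N + 1) ^ 3 := by
  unfold bx3
  rw [Fintype.card_piFinset, Finset.prod_const, Finset.card_univ, Fintype.card_fin, Int.card_Icc]
  congr 1
  omega

theorem bb_l1 {w W : ℝ → ℝ} (hk : IsKer w W) {H β t₀ P : ℝ} (hH : 1 ≤ H) (hP : 1 ≤ P) (a : Fin 3 → ℝ) {E : Set ((ℝ × ℝ) × ℝ)}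
    (hE : MeasurableSet E) : l1 (bb W β t₀ a E P ⌈2000 * H ^ 4⌉₊) ≤ 10 ^ 12 * H ^ 12 := by
  have hP0 : 0 < P := by linarith
  unfold bb
  refine (l1_sum97 _ _ _ (C := 1) fun k _ => ?_).trans ?_
  · rw [norm_mul, Complex.norm_real, Real.norm_eq_abs, abs_of_nonneg (mul_nonneg (by positivity) (Wh_nonneg hk _ _ _ _))]
    have h1 := Wh_le hk β t₀ a (dlat P k)
    have h2 := cf_norm hE hP0.le k
    calc 1 / P * Wh W β t₀ a (dlat P k) * ‖cf E P k‖ ≤ 1 / P * 1 * P :=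
          mul_le_mul (mul_le_mul_of_nonneg_left h1 (by positivity)) h2 (norm_nonneg _) (by positivity)
      _ = 1 := by field_simp
  · rw [card_bx97, mul_one]
    have hH4 : 1 ≤ H ^ 4 := one_le_pow₀ hH
    have h1 : ((⌈2000 * H ^ 4⌉₊ : ℕ) : ℝ) ≤ 2000 * H ^ 4 + 1 := (Nat.ceil_lt_add_one (by positivity)).le
    have h2 : (2 * ((⌈2000 * H ^ 4⌉₊ : ℕ) : ℝ) + 1) ≤ 4003 * H ^ 4 := by linarith
    push_cast
    calc (2 * ((⌈2000 * H ^ 4⌉₊ : ℕ) : ℝ) + 1) ^ 3 ≤ (4003 * H ^ 4) ^ 3 := pow_le_pow_left₀ (by positivity) h2 3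
      _ = 4003 ^ 3 * H ^ 12 := by ring
      _ ≤ 10 ^ 12 * H ^ 12 := mul_le_mul_of_nonneg_right (by norm_num) (by positivity)

theorem Kp_nonneg {w W : ℝ → ℝ} (hk : IsKer w W) (β t₀ : ℝ) {a : Fin 3 → ℝ} (ha : ∀ i, 0 < a i) (P : ℝ) (x : Fin 3 → ℝ) :
    0 ≤ Kp w β t₀ a P x := tsum_nonneg fun _ => Kr_nonneg hk β t₀ ha _

private theorem sc_cont97 (ξ : Fin 3 → ℝ) : Continuous (sc ξ) := by
  unfold sc
  fun_prop

private theorem vec_cont97 : Continuous vec := by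
  refine continuous_pi fun i => ?_
  fin_cases i
  · exact continuous_fst.comp continuous_fst
  · exact continuous_snd.comp continuous_fst
  · exact continuous_snd

theorem Kp_cont {w W : ℝ → ℝ} (hk : IsKer w W) {H β t₀ P : ℝ} (hH : 1 ≤ H) (hβ : |β| ≤ 1 / 2) (ht : |t₀| ≤ 6) {a : Fin 3 → ℝ}
    (ha : ∀ i, 0 < a i) (haH : ∀ i, a i ≤ H) (hP : 1 ≤ P) (hPH : P ≤ 16 * H ^ 3) : Continuous (Kp w β t₀ a P) := by
  have h1 : Kp w β t₀ a P = fun x => (∑ k ∈ bx3 ⌈2000 * H ^ 4⌉₊,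
      ((1 / P * Wh W β t₀ a (dlat P k) : ℝ) : ℂ) * ee (sc (dlat P k) x)).re := by
    funext x
    rw [← poisson_Kr hk hH hβ ht ha haH hP hPH x, Complex.ofReal_re]
  rw [h1]
  exact Complex.continuous_re.comp (continuous_finsetSum _ fun k _ =>
    continuous_const.mul (ee_cont.comp (sc_cont97 _)))

theorem xp_bb {w W : ℝ → ℝ} (hk : IsKer w W) {H β t₀ P : ℝ} (hH : 1 ≤ H) (hβ : |β| ≤ 1 / 2) (ht : |t₀| ≤ 6) {a : Fin 3 → ℝ}
    (ha : ∀ i, 0 < a i) (haH : ∀ i, a i ≤ H) (hP : 1 ≤ P) (hPH : P ≤ 16 * H ^ 3) {E : Set ((ℝ × ℝ) × ℝ)} (hE : MeasurableSet E)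
    (q : (ℝ × ℝ) × ℝ) : xp (bb W β t₀ a E P ⌈2000 * H ^ 4⌉₊) q =
      ((∫ y in (Tq ×ˢ Icc (0 : ℝ) P) ∩ E, Kp w β t₀ a P (vec q - vec y) : ℝ) : ℂ) := by
  have hfin : volume ((Tq ×ˢ Icc (0 : ℝ) P) ∩ E) < ⊤ :=
    ((measure_mono inter_subset_left).trans fin_box97.le).trans_lt ENNReal.ofReal_lt_top
  have : IsFiniteMeasure (volume.restrict ((Tq ×ˢ Icc (0 : ℝ) P) ∩ E)) := ⟨by rwa [Measure.restrict_apply_univ]⟩
  have h1 : ∀ (k : Fin 3 → ℤ) (y : (ℝ × ℝ) × ℝ), ee (sc (dlat P k) (vec q - vec y)) =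
      ee (sc (dlat P k) (vec q)) * ee (-(sc (dlat P k) (vec y))) := by
    intro k y
    rw [← ee_add]
    congr 1
    unfold sc
    simp only [Pi.sub_apply]
    ring
  rw [← integral_complex_ofReal]
  simp only [poisson_Kr hk hH hβ ht ha haH hP hPH, h1]
  rw [integral_finsetSum]
  · unfold bb
    rw [xp_fsum]
    refine Finset.sum_congr rfl fun k _ => ?_
    rw [xp_single, integral_const_mul, integral_const_mul]
    have h2 : dt (k 0, k 1) q.1 + q.2 * ((k 2 : ℝ) / P) = sc (dlat P k) (vec q) := by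
      simp only [dt, sc, dlat, vec, Matrix.cons_val_zero, Matrix.cons_val_one, Matrix.cons_val]
      ring
    rw [h2]
    unfold cf
    ring
  · intro k _
    refine Integrable.const_mul (Integrable.const_mul ?_ _) _
    refine (integrable_const (1 : ℝ)).mono' ?_ (Eventually.of_forall fun y => (ee_norm _).le)
    exact (ee_cont.comp ((sc_cont97 _).comp vec_cont97).neg).aestronglyMeasurable

private theorem ee_int97 (m : ℤ) : ee ((m : ℝ)) = 1 := by
  unfold ee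
  have h : (((2 * π * (m : ℝ) : ℝ) : ℂ) * Complex.I) = ((m : ℤ) : ℂ) * (2 * π * Complex.I) := by
    push_cast
    ring
  rw [h]
  exact Complex.exp_int_mul_two_pi_mul_I _

private theorem intP97 {P : ℝ} (hP : 0 < P) (m : ℤ) :
    ∫ x in Icc (0 : ℝ) P, ee (-((m : ℝ) / P * x)) = if m = 0 then (P : ℂ) else 0 := by
  by_cases hm : m = 0
  · rw [if_pos hm, hm]
    simp only [Int.cast_zero, zero_div, zero_mul, neg_zero, ee_zero]
    rw [setIntegral_const, Measure.real, Real.volume_Icc, sub_zero, ENNReal.toReal_ofReal hP.le, Complex.real_smul,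
      mul_one]
  rw [if_neg hm, integral_Icc_eq_integral_Ioc, ← intervalIntegral.integral_of_le hP.le]
  have hm' : (2 * π * Complex.I * (((-((m : ℝ) / P) : ℝ)) : ℂ)) ≠ 0 := by
    have h1 : (((-((m : ℝ) / P) : ℝ)) : ℂ) ≠ 0 := by
      have h0 : -((m : ℝ) / P) ≠ 0 := neg_ne_zero.2 (div_ne_zero (by exact_mod_cast hm) hP.ne')
      exact_mod_cast h0
    exact mul_ne_zero Complex.two_pi_I_ne_zero h1
  have hd : ∀ x ∈ uIcc (0 : ℝ) P, HasDerivAt
      (fun x : ℝ => ee (-((m : ℝ) / P * x)) / (2 * π * Complex.I * (((-((m : ℝ) / P) : ℝ)) : ℂ)))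
      (ee (-((m : ℝ) / P * x))) x := by
    intro x _
    have h1 : HasDerivAt (fun x : ℝ => -((m : ℝ) / P * x)) (-((m : ℝ) / P)) x := by
      have h0 := ((hasDerivAt_id x).const_mul ((m : ℝ) / P)).neg
      rw [mul_one] at h0
      exact h0
    have h2 := (HasDerivAt.scomp x (ee_hasDerivAt (-((m : ℝ) / P * x))) h1).div_const
      (2 * π * Complex.I * (((-((m : ℝ) / P) : ℝ)) : ℂ))
    refine h2.congr_deriv ?_
    rw [Complex.real_smul, div_eq_iff hm']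
    ring
  rw [intervalIntegral.integral_eq_sub_of_hasDerivAt hd]
  · have h3 : -((m : ℝ) / P * P) = ((-m : ℤ) : ℝ) := by
      rw [div_mul_cancel₀ _ hP.ne']
      push_cast
      ring
    rw [h3, ee_int97, mul_zero, neg_zero, ee_zero, sub_self]
  · apply Continuous.intervalIntegrable
    exact ee_cont.comp (by fun_prop)

private theorem cf_univ97 {P : ℝ} (hP : 0 < P) (k : Fin 3 → ℤ) : cf univ P k = if k = 0 then (P : ℂ) else 0 := by
  unfold cf
  rw [inter_univ]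
  have h1 : ∀ y : (ℝ × ℝ) × ℝ, ee (-(sc (dlat P k) (vec y))) =
      (ee (-((k 0 : ℝ) / 1 * y.1.1)) * ee (-((k 1 : ℝ) / 1 * y.1.2))) * ee (-((k 2 : ℝ) / P * y.2)) := by
    intro y
    rw [← ee_add, ← ee_add]
    congr 1
    simp only [sc, dlat, vec, Matrix.cons_val_zero, Matrix.cons_val_one, Matrix.cons_val]
    ring
  simp only [h1]
  rw [Measure.volume_eq_prod, setIntegral_prod_mul
    (fun c : ℝ × ℝ => ee (-((k 0 : ℝ) / 1 * c.1)) * ee (-((k 1 : ℝ) / 1 * c.2)))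
    (fun x : ℝ => ee (-((k 2 : ℝ) / P * x))), intP97 hP]
  unfold Tq
  rw [Measure.volume_eq_prod, setIntegral_prod_mul (fun x : ℝ => ee (-((k 0 : ℝ) / 1 * x)))
    (fun x : ℝ => ee (-((k 1 : ℝ) / 1 * x))), intP97 one_pos, intP97 one_pos]
  by_cases hk : k = 0
  · rw [hk]
    simp
  · rw [if_neg hk]
    have h2 : k 0 ≠ 0 ∨ k 1 ≠ 0 ∨ k 2 ≠ 0 := by
      by_contra hcon
      push Not at hcon
      refine hk (funext fun i => ?_)
      fin_cases i
      · exact hcon.1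
      · exact hcon.2.1
      · exact hcon.2.2
    rcases h2 with h2 | h2 | h2
    · rw [if_neg h2, zero_mul, zero_mul]
    · rw [if_neg h2, mul_zero, zero_mul]
    · rw [if_neg h2, mul_zero]

theorem Kp_one {w W : ℝ → ℝ} (hk : IsKer w W) {H β t₀ P : ℝ} (hH : 1 ≤ H) (hβ : |β| ≤ 1 / 2) (ht : |t₀| ≤ 6) {a : Fin 3 → ℝ}
    (ha : ∀ i, 0 < a i) (haH : ∀ i, a i ≤ H) (hP : 1 ≤ P) (hPH : P ≤ 16 * H ^ 3) (q : (ℝ × ℝ) × ℝ) :
    ∫ y in Tq ×ˢ Icc (0 : ℝ) P, Kp w β t₀ a P (vec q - vec y) = 1 := by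
  classical
  have hP0 : 0 < P := by linarith
  have h1 := xp_bb hk hH hβ ht ha haH hP hPH (E := univ) MeasurableSet.univ q
  rw [inter_univ] at h1
  have h2 : xp (bb W β t₀ a univ P ⌈2000 * H ^ 4⌉₊) q = 1 := by
    unfold bb
    rw [xp_fsum, Finset.sum_eq_single (0 : Fin 3 → ℤ)]
    · rw [xp_single, cf_univ97 hP0, if_pos rfl, Wh_zero hk]
      have h3 : dt ((0 : Fin 3 → ℤ) 0, (0 : Fin 3 → ℤ) 1) q.1 + q.2 * (((0 : Fin 3 → ℤ) 2 : ℝ) / P) = 0 := by
        simp [dt]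
      rw [h3, ee_zero, mul_one, mul_one]
      rw [← Complex.ofReal_mul, one_div, inv_mul_cancel₀ hP0.ne', Complex.ofReal_one]
    · intro k _ hk0
      rw [xp_single, cf_univ97 hP0, if_neg hk0, mul_zero, zero_mul]
    · intro h0
      exact absurd (by
        unfold bx3
        rw [Fintype.mem_piFinset]
        intro i
        rw [Finset.mem_Icc]
        simp) h0
  rw [h2] at h1
  exact_mod_cast h1.symm

end Pool.Agent.Helper89.GS
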